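import Pool.Agent.ETI.Defs

/-!
# Definitions (TupleIso in every genus)

As in `ETI.Defs`, for the curve `w + w⁻¹ = c ∏ (x - a i) ^ d i + κ`, `i ≤ g`, with exponents `d i = 1` or `2`
(`d i = 2` only for `κ = ± 2`). Shared with `ETI`: `Dq`, `Tm`, `GoodD`, `Bd`, `Nice`, `xa`, `Hf`.
-/

open scoped BigOperators Polynomial
open Polynomial

namespace Pool.Agent.ETO

open Pool.Agent.ETU Pool.Agent.CST Pool.Agent.Helper11 Pool.Agent.ISI Pool.Agent.ETI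

/-- the equation of `y = w x` over `ℚ(w)`: `∏ (Y - a i T) ^ d i - c⁻¹ T ^ (m - 1) (T² - κ T + 1)`, `m = ∑ d i` -/
noncomputable def Ey {g : ℕ} (a : Fin (g + 1) → ℤ) (d : Fin (g + 1) → ℕ) (c κ : ℤ) : ℚ[X][X] :=
  ∏ i, (X - C (C (a i : ℚ) * X)) ^ d i -
    C (C ((c : ℚ)⁻¹) * X ^ (∑ i, d i - 1) * (Dq κ).map (Int.castRingHom ℚ))

/-- the conditions on the primes -/
structure Prm (p : ℕ) [Fact p.Prime] {g : ℕ} (a : Fin (g + 1) → ℤ) (d : Fin (g + 1) → ℕ)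
    (c κ : ℤ) {r : ℕ} (f : Fin r → ℤ[X]) : Prop where
  cop : (∑ i, d i).Coprime (p * (p - 1))
  val : (∑ i, d i).Coprime (padicValInt p c)
  fam : Fam p f
  dis : ∀ i j, i ≠ j → ¬ (p : ℤ) ∣ a i - a j
  big : ∑ i, (f i).natDegree + 5 < p
  nice : ∀ P : ℚ[X], P.Monic → Irreducible P → ¬ P ∣ X →
    ¬ P ∣ (Dq κ).map (Int.castRingHom ℚ) →
    ((∃ j, P ∣ (f j).map (Int.castRingHom ℚ)) ∨
      (P.natDegree ≤ Bd f ∧ ∃ b : Fin r → ℤ, b ≠ 0 ∧ Rel f b P)) → Nice p κ P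

/-- the curve; `v` is the unit `w`; over a double zero `a i` there is one place -/
structure Crv {g : ℕ} (a : Fin (g + 1) → ℤ) (d : Fin (g + 1) → ℕ) (c κ : ℤ) {K : Type} [Field K]
    [CharZero K] (x : K) (v : Kˣ) : Prop where
  inj : Function.Injective a
  g0 : 0 < g
  c0 : c ≠ 0
  κ2 : |κ| ≤ 2
  d12 : ∀ i, d i = 1 ∨ (d i = 2 ∧ |κ| = 2)
  sq : ∀ i, d i = 2 →
    ¬ IsSquare ((c : ℚ) * ((κ : ℚ) / 2) * ∏ j ∈ Finset.univ.erase i, ((a i : ℚ) - a j) ^ d j)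
  tr : Transcendental ℚ x
  top : IntermediateField.adjoin ℚ {x, (v : K)} = ⊤
  eq : (v : K) + (v : K)⁻¹ = c * ∏ i, (x - a i) ^ d i + κ

theorem Crv.dpos {g : ℕ} {a : Fin (g + 1) → ℤ} {d : Fin (g + 1) → ℕ} {c κ : ℤ} {K : Type}
    [Field K] [CharZero K] {x : K} {v : Kˣ} (H : Crv a d c κ x v) (i : Fin (g + 1)) : 0 < d i := by
  rcases H.d12 i with h | h <;> omega

theorem Crv.mpos {g : ℕ} {a : Fin (g + 1) → ℤ} {d : Fin (g + 1) → ℕ} {c κ : ℤ} {K : Type}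
    [Field K] [CharZero K] {x : K} {v : Kˣ} (H : Crv a d c κ x v) : g + 1 ≤ ∑ i, d i := by
  calc g + 1 = ∑ _i : Fin (g + 1), 1 := by simp
    _ ≤ ∑ i, d i := Finset.sum_le_sum fun i _ => H.dpos i

theorem Crv.m0 {g : ℕ} {a : Fin (g + 1) → ℤ} {d : Fin (g + 1) → ℕ} {c κ : ℤ} {K : Type}
    [Field K] [CharZero K] {x : K} {v : Kˣ} (H : Crv a d c κ x v) : 0 < ∑ i, d i :=
  lt_of_lt_of_le (Nat.succ_pos g) H.mpos

theorem Crv.m1 {g : ℕ} {a : Fin (g + 1) → ℤ} {d : Fin (g + 1) → ℕ} {c κ : ℤ} {K : Type}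
    [Field K] [CharZero K] {x : K} {v : Kˣ} (H : Crv a d c κ x v) : 1 < ∑ i, d i :=
  lt_of_lt_of_le (Nat.succ_lt_succ H.g0) H.mpos

end Pool.Agent.ETO
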