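import Pool.Agent.ETO.Defs

/-!
# Basic facts on the curve

`Ey` is monic of degree `m = ∑ d i`. With `P = ∏ (X - a i) ^ d i` the equation is `v + v⁻¹ = c P(x) + κ`, so `c v P(x) = D(v)` (`Crv.prod`), and `Ey` vanishes at
`(v, v x)` (`Crv.ey`). If `v` were algebraic, then `c P(x) + κ` would be so, but `x` is transcendental (`Crv.tr_v`). `v` is integral over `ℚ(x)`, hence
`K` is finite over `ℚ(x)`, and so over `ℚ(v)` (`CST.finite_of_transcendental`).
-/

open scoped BigOperators Polynomial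
open Polynomial

namespace Pool.Agent.ETO

open Pool.Agent.ETU Pool.Agent.ETI Pool.Agent.CST Pool.Agent.Helper11 Pool.Agent.ISI

theorem ey_monic {g : ℕ} (a : Fin (g + 1) → ℤ) {d : Fin (g + 1) → ℕ} (h0 : 0 < ∑ i, d i)
    (c κ : ℤ) : (Ey a d c κ).Monic ∧ (Ey a d c κ).natDegree = ∑ i, d i := by
  have hm : (∏ i, (X - C (C (a i : ℚ) * X)) ^ d i : ℚ[X][X]).Monic :=
    monic_prod_of_monic _ _ fun i _ => (monic_X_sub_C _).pow _
  have hd : (∏ i, (X - C (C (a i : ℚ) * X)) ^ d i : ℚ[X][X]).natDegree = ∑ i, d i := by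
    rw [natDegree_prod_of_monic _ _ fun i _ => (monic_X_sub_C _).pow _]
    refine Finset.sum_congr rfl fun i _ => ?_
    rw [natDegree_pow, natDegree_X_sub_C, mul_one]
  have hlt : (C (C ((c : ℚ)⁻¹) * X ^ (∑ i, d i - 1) * (Dq κ).map (Int.castRingHom ℚ)) :
      ℚ[X][X]).natDegree < (∏ i, (X - C (C (a i : ℚ) * X)) ^ d i : ℚ[X][X]).natDegree := by
    rw [natDegree_C, hd]
    exact h0
  constructor
  · unfold Ey
    exact hm.sub_of_left (degree_lt_degree hlt)
  · unfold Ey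
    rw [natDegree_sub_eq_left_of_natDegree_lt hlt, hd]

/-- `∏ (x - a l) = D(v) / (c v)` -/
theorem Crv.prod {g : ℕ} {a : Fin (g + 1) → ℤ} {d : Fin (g + 1) → ℕ} {c κ : ℤ}
    {K : Type} [Field K] [CharZero K] {x : K} {v : Kˣ} (H : Crv a d c κ x v) :
    (c : K) * (v : K) * ∏ l, (x - a l) ^ d l = aeval (v : K) (Dq κ) := by
  have h1 := H.eq
  have h2 : (v : K) ≠ 0 := v.ne_zero
  have h3 : (v : K) * ((v : K) + (v : K)⁻¹) = (v : K) * (c * ∏ i, (x - a i) ^ d i + κ) := by rw [h1]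
  rw [mul_add, mul_inv_cancel₀ h2] at h3
  unfold Dq
  simp only [map_add, map_sub, map_mul, map_pow, aeval_X, aeval_C, map_one]
  simp only [eq_intCast]
  linear_combination -h3

private theorem cva_alg {g : ℕ} {a : Fin (g + 1) → ℤ} {d : Fin (g + 1) → ℕ} {c κ : ℤ}
    {K : Type} [Field K] [CharZero K] {x : K} {v : Kˣ} (H : Crv a d c κ x v) : Transcendental ℚ ((v : K) + (v : K)⁻¹) := by
  have h1 : (v : K) + (v : K)⁻¹ =
      aeval x (C (c : ℚ) * ∏ i, (X - C (a i : ℚ)) ^ d i + C (κ : ℚ) : ℚ[X]) := by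
    rw [H.eq]
    simp [map_prod]
  have hc : (c : ℚ) ≠ 0 := Int.cast_ne_zero.2 H.c0
  have h2 : (C (c : ℚ) * ∏ i, (X - C (a i : ℚ)) ^ d i + C (κ : ℚ) : ℚ[X]).natDegree =
      ∑ i, d i := by
    rw [natDegree_add_C, natDegree_C_mul hc,
      natDegree_prod_of_monic _ _ fun i _ => (monic_X_sub_C _).pow _]
    refine Finset.sum_congr rfl fun i _ => ?_
    rw [natDegree_pow, natDegree_X_sub_C, mul_one]
  have hm := H.mpos
  rw [h1]
  refine Transcendental.aeval H.tr _ ?_ ?_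
  · rw [h2]
    omega
  · refine mem_nonZeroDivisors_of_ne_zero ?_
    rw [Ne, leadingCoeff_eq_zero]
    intro h3
    rw [h3, natDegree_zero] at h2
    omega

theorem Crv.tr_v {g : ℕ} {a : Fin (g + 1) → ℤ} {d : Fin (g + 1) → ℕ} {c κ : ℤ}
    {K : Type} [Field K] [CharZero K] {x : K} {v : Kˣ} (H : Crv a d c κ x v) : Transcendental ℚ (v : K) := by
  intro h
  exact cva_alg H (h.add h.inv)

private theorem cva_int {K : Type} [Field K] [CharZero K] (L : IntermediateField ℚ K) {v : K}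
    (h2 : v ≠ 0) (hb : v + v⁻¹ ∈ L) : IsIntegral L v := by
  refine ⟨X ^ 2 - C (⟨_, hb⟩ : L) * X + C 1, by monicity!, ?_⟩
  rw [eval₂_add, eval₂_sub, eval₂_mul, eval₂_pow, eval₂_X, eval₂_C, eval₂_C, map_one]
  change v ^ 2 - (v + v⁻¹) * v + 1 = 0
  field_simp
  ring

private theorem cva_top {K : Type} [Field K] [CharZero K] {x v : K}
    (ht : IntermediateField.adjoin ℚ {x, v} = ⊤) :
    IntermediateField.adjoin (IntermediateField.adjoin ℚ {x}) {v} = ⊤ := by
  have h1 := IntermediateField.adjoin_adjoin_left ℚ {x} {v}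
  have h2 : ({x} ∪ {v} : Set K) = {x, v} := rfl
  rw [h2, ht] at h1
  exact IntermediateField.restrictScalars_injective ℚ (h1.trans
    (IntermediateField.restrictScalars_top).symm)

theorem Crv.fin {g : ℕ} {a : Fin (g + 1) → ℤ} {d : Fin (g + 1) → ℕ} {c κ : ℤ}
    {K : Type} [Field K] [CharZero K] {x : K} {v : Kˣ} (H : Crv a d c κ x v) :
    FiniteDimensional (IntermediateField.adjoin ℚ {(v : K)}) K := by
  refine finite_of_transcendental (g := x) ?_ H.tr_v
  have hx : x ∈ IntermediateField.adjoin ℚ {x} := IntermediateField.subset_adjoin _ _ rfl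
  have hb : (v : K) + (v : K)⁻¹ ∈ IntermediateField.adjoin ℚ {x} := by
    rw [H.eq]
    exact add_mem (mul_mem (intCast_mem _ c)
      (prod_mem fun i _ => pow_mem (sub_mem hx (intCast_mem _ _)) _)) (intCast_mem _ κ)
  have h7 : FiniteDimensional (IntermediateField.adjoin ℚ {x})
      (IntermediateField.adjoin (IntermediateField.adjoin ℚ {x}) {(v : K)}) :=
    IntermediateField.adjoin.finiteDimensional (cva_int _ v.ne_zero hb)
  rw [cva_top H.top] at h7
  exact IntermediateField.topEquiv.toLinearEquiv.finiteDimensional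

theorem Crv.ey {g : ℕ} {a : Fin (g + 1) → ℤ} {d : Fin (g + 1) → ℕ} {c κ : ℤ}
    {K : Type} [Field K] [CharZero K] {x : K} {v : Kˣ} (H : Crv a d c κ x v) : ev2 (v : K) ((v : K) * x) (Ey a d c κ) = 0 := by
  have hc : (c : K) ≠ 0 := Int.cast_ne_zero.2 H.c0
  have h1 := H.prod
  have h2 : ev2 (v : K) ((v : K) * x) (∏ i, (X - C (C (a i : ℚ) * X)) ^ d i) =
      (v : K) ^ (∑ i, d i) * ∏ i, (x - a i) ^ d i := by
    rw [map_prod]
    have h3 : ∀ i ∈ (Finset.univ : Finset (Fin (g + 1))),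
        ev2 (v : K) ((v : K) * x) ((X - C (C (a i : ℚ) * X)) ^ d i) =
          (v : K) ^ d i * (x - a i) ^ d i := by
      intro i _
      rw [map_pow, ← mul_pow]
      congr 1
      unfold ev2
      rw [coe_eval₂RingHom, eval₂_sub, eval₂_X, eval₂_C]
      simp
      ring
    rw [Finset.prod_congr rfl h3, Finset.prod_mul_distrib, Finset.prod_pow_eq_pow_sum]
  have h3 : ev2 (v : K) ((v : K) * x)
      (C (C ((c : ℚ)⁻¹) * X ^ (∑ i, d i - 1) * (Dq κ).map (Int.castRingHom ℚ))) =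
      (c : K)⁻¹ * (v : K) ^ (∑ i, d i - 1) * aeval (v : K) (Dq κ) := by
    unfold ev2
    rw [coe_eval₂RingHom, eval₂_C]
    change aeval (v : K) _ = _
    rw [map_mul, map_mul, aeval_C, map_pow, aeval_X, ← algebraMap_int_eq, aeval_map_algebraMap]
    simp
  have h4 : (v : K) ^ (∑ i, d i) = (v : K) ^ (∑ i, d i - 1) * (v : K) := by
    rw [← pow_succ]
    congr 1
    have := H.mpos
    omega
  unfold Ey
  rw [map_sub, h2, h3, ← h1, h4]
  field_simp
  ring

theorem Crv.gen {g : ℕ} {a : Fin (g + 1) → ℤ} {d : Fin (g + 1) → ℕ} {c κ : ℤ}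
    {K : Type} [Field K] [CharZero K] {x : K} {v : Kˣ} (H : Crv a d c κ x v) :
    IntermediateField.adjoin ℚ {(v : K), (v : K) * x} = ⊤ := by
  rw [eq_top_iff, ← H.top, IntermediateField.adjoin_le_iff]
  have h2 : (v : K) ≠ 0 := v.ne_zero
  have hv : (v : K) ∈ IntermediateField.adjoin ℚ {(v : K), (v : K) * x} :=
    IntermediateField.subset_adjoin _ _ (Set.mem_insert _ _)
  have hvx : (v : K) * x ∈ IntermediateField.adjoin ℚ {(v : K), (v : K) * x} :=
    IntermediateField.subset_adjoin _ _ (Set.mem_insert_of_mem _ rfl)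
  rintro z (rfl | rfl)
  · have h3 := div_mem hvx hv
    rwa [mul_div_cancel_left₀ _ h2] at h3
  · exact hv

theorem Crv.inv {g : ℕ} {a : Fin (g + 1) → ℤ} {d : Fin (g + 1) → ℕ} {c κ : ℤ}
    {K : Type} [Field K] [CharZero K] {x : K} {v : Kˣ} (H : Crv a d c κ x v) : Crv a d c κ x v⁻¹ := by
  refine ⟨H.inj, H.g0, H.c0, H.κ2, H.d12, H.sq, H.tr, ?_, ?_⟩
  · rw [eq_top_iff, ← H.top, IntermediateField.adjoin_le_iff]
    have hx : x ∈ IntermediateField.adjoin ℚ {x, ((v⁻¹ : Kˣ) : K)} :=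
      IntermediateField.subset_adjoin _ _ (Set.mem_insert _ _)
    have hv : ((v⁻¹ : Kˣ) : K) ∈ IntermediateField.adjoin ℚ {x, ((v⁻¹ : Kˣ) : K)} :=
      IntermediateField.subset_adjoin _ _ (Set.mem_insert_of_mem _ rfl)
    rintro z (rfl | rfl)
    · exact hx
    · have h3 := inv_mem hv
      have h4 : (((v⁻¹ : Kˣ) : K))⁻¹ = (v : K) := by
        rw [Units.val_inv_eq_inv_val, inv_inv]
      rwa [h4] at h3
  · rw [Units.val_inv_eq_inv_val, inv_inv, add_comm]
    exact H.eq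

end Pool.Agent.ETO
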