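import Pool.Agent.ETO.Sun

/-!
# MODULE ETI-Dec : reduction to the functions `Hf`

By `Crv.s_unit` powers of the functions `h i` are functions `Hf` up to values of polynomials in `w`; the symbols `sy (u i) (r i)` of two
values of polynomials belong to `LP`.
-/

open scoped BigOperators Polynomial
open Polynomial

namespace Pool.Agent.ETO

open Pool.Agent.ETU Pool.Agent.ETI Pool.Agent.CST Pool.Agent.Helper11 Pool.Agent.ISI

private theorem dec_Hf {g : ℕ} {K : Type} [Field K] [CharZero K] (x : K) (a : Fin (g + 1) → ℤ)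
    (e : Fin (g + 1) → ℤ) (n : ℤ) : Hf x a (fun l => n * e l) = Hf x a e ^ n := by
  unfold Hf
  rw [← Finset.prod_zpow]
  refine Finset.prod_congr rfl fun l _ => ?_
  show xa x a l ^ (n * e l) = _
  rw [mul_comm n, zpow_mul]

private theorem dec_npow {K : Type} [Field K] (u h : Kˣ) (n : ℕ) :
    (n : ℚ) • sy u h = sy u (h ^ n) := by
  rw [← zpow_natCast, sy_zpow_right, Int.cast_natCast]

theorem Crv.dec {g : ℕ} {a : Fin (g + 1) → ℤ} {d : Fin (g + 1) → ℕ} {c κ : ℤ}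
    {K : Type} [Field K] [CharZero K] {x : K} {v : Kˣ} (H : Crv a d c κ x v) {r : ℕ} {f : Fin r → ℤ[X]} (hf : ∀ i, f i ≠ 0)
    {u : Fin r → Kˣ} (hu : ∀ i, (u i : K) = aeval (v : K) (f i)) {z β : KMQ K 2} {N : ℕ}
    (hN : 0 < N) {h : Fin r → Kˣ} (hβ : β ∈ LP (v : K))
    (hz : (N : ℚ) • z = ∑ i, sy (u i) (h i) + β)
    (hh : ∀ O : ValuationSubring K, IsPl O → O.valuation (v : K) = 1 →
      O.valuation (aeval (v : K) (Dq κ)) = 1 → ∀ i, vo O (h i) = 0) :
    ∃ (N' : ℕ) (e : Fin r → Fin (g + 1) → ℤ) (β' : KMQ K 2), 0 < N' ∧ (∀ i, ∑ l, e i l = 0) ∧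
      β' ∈ LP (v : K) ∧ (N' : ℚ) • z = ∑ i, sy (u i) (Hf x a (e i)) + β' := by
  classical
  have htr := H.tr_v
  have hs : ∀ i, ∃ (M : ℕ) (e : Fin (g + 1) → ℤ) (p q : ℚ[X]), 0 < M ∧ ∑ l, e l = 0 ∧ p ≠ 0 ∧ q ≠ 0 ∧
      h i ^ M = pq (v : K) p / pq (v : K) q * Hf x a e :=
    fun i => H.s_unit (h i) fun O hO h1 h2 => hh O hO h1 h2 i
  choose M e p q hM he hp hq hpow using hs
  set k : Fin r → ℕ := fun i => ∏ j ∈ Finset.univ.erase i, M j with hk
  have hMk : ∀ i, M i * k i = ∏ j, M j := fun i => Finset.mul_prod_erase _ _ (Finset.mem_univ i)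
  have hM0 : 0 < ∏ j, M j := Finset.prod_pos fun j _ => hM j
  have hterm : ∀ i, ((∏ j, M j : ℕ) : ℚ) • sy (u i) (h i) =
      sy (u i) (Hf x a (fun l => (k i : ℤ) * e i l)) +
        (k i : ℚ) • (sy (u i) (pq (v : K) (p i)) - sy (u i) (pq (v : K) (q i))) := by
    intro i
    rw [dec_npow, ← hMk i, pow_mul, hpow i, ← dec_npow, sy_mul_right, sy_div_right, dec_Hf,
      sy_zpow_right, smul_add, Int.cast_natCast]
    exact add_comm _ _
  have hu' : ∀ i, u i = pq (v : K) ((f i).map (Int.castRingHom ℚ)) := fun i =>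
    pq_congr htr (map_ne (hf i)) (by rw [aeval_map, hu i])
  refine ⟨(∏ j, M j) * N, fun i l => (k i : ℤ) * e i l,
    ∑ i, (k i : ℚ) • (sy (u i) (pq (v : K) (p i)) - sy (u i) (pq (v : K) (q i))) +
      ((∏ j, M j : ℕ) : ℚ) • β, Nat.mul_pos hM0 hN, fun i => ?_, ?_, ?_⟩
  · rw [← Finset.mul_sum, he i, mul_zero]
  · refine Submodule.add_mem _ (Submodule.sum_mem _ fun i _ => Submodule.smul_mem _ _ ?_)
      (Submodule.smul_mem _ _ hβ)
    rw [hu' i]
    exact Submodule.sub_mem _ (Submodule.subset_span ⟨_, _, map_ne (hf i), hp i, rfl⟩)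
      (Submodule.subset_span ⟨_, _, map_ne (hf i), hq i, rfl⟩)
  · rw [Nat.cast_mul, mul_smul, hz, smul_add, Finset.smul_sum,
      Finset.sum_congr rfl fun i _ => hterm i, Finset.sum_add_distrib]
    exact add_assoc _ _ _

end Pool.Agent.ETO
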