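import Pool.Agent.ETI.Defs
import Pool.Agent.BPG.Defs

/-!
# ETO-Dis : the genus of the curve is `g`

`disc = (c P + κ) ^ 2 - 4`, `P = ∏ (X - a i) ^ d i`, `m = ∑ d i`. At a complex zero `β` one has `c P(β) = - μ` with
`|μ| ≤ 4`. When `μ ≠ 0` and `P'(β) = 0`, then `m β` is an algebraic integer, so `m ^ m P(β)` is a rational integer and `c`
divides `μ m ^ m`, which is prime to `p`: so `β` is a simple zero. When `μ = 0`, then `β = a l`, of multiplicity `d l`.
The zeros of odd multiplicity are `2 m - 2 #{l : d l = 2} = 2 (g + 1)` in number.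
-/

open scoped BigOperators Polynomial
open Polynomial

namespace Pool.Agent.ETO

private lemma dis_int (P : ℤ[X]) {d : ℕ} (hP : P.natDegree = d) {β : ℂ} {m : ℤ}
    (hβ : IsIntegral ℤ ((m : ℂ) * β)) : IsIntegral ℤ ((m : ℂ) ^ d * aeval β P) := by
  rw [aeval_eq_sum_range, Finset.mul_sum, hP]
  refine IsIntegral.sum _ fun i hi => ?_
  have hi' : i ≤ d := Nat.lt_succ_iff.1 (Finset.mem_range.1 hi)
  have e : (m : ℂ) ^ d * (P.coeff i • β ^ i) =
      (((P.coeff i * m ^ (d - i) : ℤ)) : ℂ) * ((m : ℂ) * β) ^ i := by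
    conv_lhs => rw [← Nat.sub_add_cancel hi']
    rw [zsmul_eq_mul]
    push_cast
    rw [pow_add, mul_pow]
    ring
  rw [e]
  exact (isIntegral_algebraMap (R := ℤ) (A := ℂ)).mul (hβ.pow i)

private lemma dis_rat {q : ℚ} (h : IsIntegral ℤ ((q : ℚ) : ℂ)) : ∃ n : ℤ, q = n := by
  have h1 : IsIntegral ℤ q := by
    have := (isIntegral_algebraMap_iff (R := ℤ) (A := ℚ) (B := ℂ)
      (algebraMap ℚ ℂ).injective (x := q)).1
    exact this h
  obtain ⟨n, hn⟩ := IsIntegrallyClosed.isIntegral_iff.1 h1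
  exact ⟨n, by rw [← hn]; simp⟩

private lemma dis_key {P : ℤ[X]} (hPm : P.Monic) {m : ℕ} (hPd : P.natDegree = m + 1) {c μ : ℤ}
    (hc : c ≠ 0) (hμ0 : μ ≠ 0) (hμ : |μ| ≤ 4) {p : ℕ} [Fact p.Prime] (hpc : (p : ℤ) ∣ c)
    (hg : ¬ p ∣ m + 1) (hp : 4 < p) {β : ℂ} (h : (c : ℂ) * aeval β P = -(μ : ℂ)) :
    aeval β (derivative P) ≠ 0 := by
  intro h0
  have hpp : p.Prime := Fact.out
  have hd1 : (derivative P).natDegree = m := by
    rw [natDegree_derivative P, hPd]; rfl
  have hlc : (derivative P).leadingCoeff = ((m + 1 : ℕ) : ℤ) := by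
    rw [leadingCoeff, hd1, coeff_derivative, ← hPd, hPm.coeff_natDegree, hPd]
    push_cast
    ring
  have h1 : IsIntegral ℤ ((((m + 1 : ℕ) : ℤ) : ℂ) * β) := by
    have h2 := isIntegral_leadingCoeff_smul (derivative P) β h0
    rwa [hlc, zsmul_eq_mul] at h2
  have h2 := dis_int P hPd h1
  have hcc : (c : ℂ) ≠ 0 := Int.cast_ne_zero.2 hc
  have h3 : (((m + 1 : ℕ) : ℤ) : ℂ) ^ (m + 1) * aeval β P =
      (((-(μ : ℚ) * ((m + 1 : ℕ) : ℚ) ^ (m + 1) / (c : ℚ) : ℚ)) : ℂ) := by
    have h4 : aeval β P = -(μ : ℂ) / c := by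
      rw [eq_div_iff hcc, mul_comm]
      exact h
    rw [h4]
    push_cast
    ring
  rw [h3] at h2
  obtain ⟨n, hn⟩ := dis_rat h2
  have hcq : (c : ℚ) ≠ 0 := Int.cast_ne_zero.2 hc
  rw [div_eq_iff hcq] at hn
  have h5 : -μ * ((m + 1 : ℕ) : ℤ) ^ (m + 1) = n * c := by exact_mod_cast hn
  have h6 : (p : ℤ) ∣ -μ * ((m + 1 : ℕ) : ℤ) ^ (m + 1) := h5 ▸ hpc.mul_left n
  have hpi : Prime (p : ℤ) := Nat.prime_iff_prime_int.1 hpp
  rcases hpi.dvd_or_dvd h6 with h7 | h7
  · rw [dvd_neg] at h7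
    have h8 := Int.le_of_dvd (abs_pos.2 hμ0) ((dvd_abs _ _).2 h7)
    have : ((p : ℕ) : ℤ) ≤ 4 := h8.trans hμ
    omega
  · exact hg (Int.natCast_dvd_natCast.1 (hpi.dvd_of_dvd_pow h7))

/-- the polynomial without the factor `l` does not vanish at `a l` -/
private lemma dis_ne {n : ℕ} {a : Fin n → ℤ} (ha : Function.Injective a)
    (d : Fin n → ℕ) (l : Fin n) :
    (∏ j ∈ Finset.univ.erase l, (X - C (a j : ℂ)) ^ d j : ℂ[X]).eval (a l : ℂ) ≠ 0 := by
  rw [eval_prod, Finset.prod_ne_zero_iff]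
  intro j hj
  rw [eval_pow, eval_sub, eval_X, eval_C]
  refine pow_ne_zero _ (sub_ne_zero.2 fun h => ?_)
  exact (Finset.mem_erase.1 hj).1 (ha (Int.cast_injective h)).symm

private lemma dis_mult {n : ℕ} {a : Fin n → ℤ} (ha : Function.Injective a)
    (d : Fin n → ℕ) (l : Fin n) :
    (∏ j, (X - C (a j : ℂ)) ^ d j : ℂ[X]).rootMultiplicity (a l : ℂ) = d l := by
  have hne : ∀ s : Finset (Fin n), (∏ j ∈ s, (X - C (a j : ℂ)) ^ d j : ℂ[X]) ≠ 0 := fun s =>
    Finset.prod_ne_zero_iff.2 fun j _ => pow_ne_zero _ (X_sub_C_ne_zero _)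
  rw [← Finset.mul_prod_erase Finset.univ _ (Finset.mem_univ l), rootMultiplicity_mul
    (mul_ne_zero (pow_ne_zero _ (X_sub_C_ne_zero _)) (hne _)), rootMultiplicity_X_sub_C_pow,
    rootMultiplicity_eq_zero (by rw [IsRoot.def]; exact dis_ne ha d l), add_zero]

private lemma dis_root {n : ℕ} {a : Fin n → ℤ} {d : Fin n → ℕ} {β : ℂ}
    (h : (∏ j, (X - C (a j : ℂ)) ^ d j : ℂ[X]).eval β = 0) : ∃ l, β = a l := by
  rw [eval_prod, Finset.prod_eq_zero_iff] at h
  obtain ⟨l, -, hl⟩ := h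
  rw [eval_pow, eval_sub, eval_X, eval_C] at hl
  exact ⟨l, sub_eq_zero.1 (eq_zero_of_pow_eq_zero hl)⟩

theorem genus_eq {g : ℕ} {a : Fin (g + 1) → ℤ} (ha : Function.Injective a)
    {d : Fin (g + 1) → ℕ} {c κ : ℤ} (hd : ∀ i, d i = 1 ∨ (d i = 2 ∧ |κ| = 2))
    (hc : c ≠ 0) (hκ : |κ| ≤ 2) {p : ℕ} [Fact p.Prime] (hν : padicValInt p c ≠ 0)
    (hg : ¬ p ∣ ∑ i, d i) (hp : 4 < p) :
    BPG.genus (BPG.disc (fun i => X - C (a i)) d c κ 1) = g := by
  classical
  have hpc : (p : ℤ) ∣ c := by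
    by_contra h
    exact hν (padicValInt.eq_zero_of_not_dvd h)
  have hdp : ∀ i, 0 < d i := fun i => by rcases hd i with h | h <;> omega
  obtain ⟨m, hm⟩ : ∃ m, ∑ i, d i = m + 1 := by
    refine Nat.exists_eq_succ_of_ne_zero fun h => ?_
    have := (Finset.sum_eq_zero_iff.1 h) 0 (Finset.mem_univ _)
    have := hdp 0
    omega
  have hm2 : ∑ i, d i = (g + 1) + (Finset.univ.filter fun l => d l = 2).card := by
    have h1 : ∀ i, d i = 1 + if d i = 2 then 1 else 0 := fun i => by
      rcases hd i with h | h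
      · rw [h]; simp
      · rw [h.1]; simp
    rw [Finset.sum_congr rfl fun i _ => h1 i, Finset.sum_add_distrib, Finset.card_filter]
    simp
  rw [hm] at hg
  set P : ℤ[X] := ∏ i, (X - C (a i)) ^ d i with hP
  have hPm : P.Monic := monic_prod_of_monic _ _ fun i _ => (monic_X_sub_C _).pow _
  have hPd : P.natDegree = m + 1 := by
    rw [hP, natDegree_prod_of_monic _ _ fun i _ => (monic_X_sub_C _).pow _, ← hm]
    exact Finset.sum_congr rfl fun i _ => by rw [natDegree_pow, natDegree_X_sub_C, mul_one]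
  have hPC : P.map (Int.castRingHom ℂ) = ∏ i, (X - C (a i : ℂ)) ^ d i := by
    rw [hP, Polynomial.map_prod]
    simp
  have hcc : (c : ℂ) ≠ 0 := Int.cast_ne_zero.2 hc
  set Q : ℂ[X] := C (c : ℂ) * P.map (Int.castRingHom ℂ) + C (κ : ℂ) with hQ
  have hD : BPG.disc (fun i => X - C (a i)) d c κ 1 = Q ^ 2 - C 4 := by
    rw [BPG.disc, hQ, hP, Polynomial.map_prod]
    simp
  have hQd : Q.natDegree = m + 1 := by
    rw [hQ, natDegree_add_C, natDegree_C_mul hcc, hPm.natDegree_map, hPd]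
  set D : ℂ[X] := Q ^ 2 - C 4 with hDD
  have hDd : D.natDegree = 2 * (m + 1) := by
    rw [hDD, natDegree_sub_C, natDegree_pow, hQd]
  have hD0 : D ≠ 0 := by
    intro h
    rw [h, natDegree_zero] at hDd
    omega
  have hev : ∀ β : ℂ, Q.eval β = (c : ℂ) * aeval β P + κ := by
    intro β
    rw [hQ, eval_add, eval_mul, eval_C, eval_C, eval_map, aeval_def]
    rfl
  have hdv : ∀ β : ℂ, (derivative Q).eval β = (c : ℂ) * aeval β (derivative P) := by
    intro β
    rw [hQ, derivative_add, derivative_C, add_zero, derivative_C_mul, derivative_map, eval_mul,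
      eval_C, eval_map, aeval_def]
    rfl
  have hk := abs_le.1 hκ
  -- the zeros `a l` for `|κ| = 2`
  have hzero : |κ| = 2 → ∀ l, D.rootMultiplicity (a l : ℂ) = d l := by
    intro hκ2 l
    have hκ4 : (κ : ℂ) ^ 2 = 4 := by
      have h1 : κ ^ 2 = 4 := by
        rw [← sq_abs, hκ2]
        norm_num
      exact_mod_cast h1
    have hκ0 : (κ : ℂ) ≠ 0 := by
      intro h
      rw [h] at hκ4
      norm_num at hκ4
    have h1 : D = (C (c : ℂ) * P.map (Int.castRingHom ℂ)) *
        (C (c : ℂ) * P.map (Int.castRingHom ℂ) + C (2 * (κ : ℂ))) := by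
      rw [hDD, hQ, ← hκ4]
      simp only [C_mul, C_pow]
      have : (C (2 : ℂ) : ℂ[X]) = 2 := rfl
      rw [this]
      ring
    have h2 : (P.map (Int.castRingHom ℂ)).eval (a l : ℂ) = 0 := by
      rw [hPC, eval_prod]
      refine Finset.prod_eq_zero (Finset.mem_univ l) ?_
      rw [eval_pow, eval_sub, eval_X, eval_C, sub_self, zero_pow (hdp l).ne']
    have h3 : ¬ (C (c : ℂ) * P.map (Int.castRingHom ℂ) + C (2 * (κ : ℂ))).IsRoot (a l : ℂ) := by
      rw [IsRoot.def, eval_add, eval_mul, eval_C, eval_C, h2, mul_zero, zero_add]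
      exact mul_ne_zero two_ne_zero hκ0
    have h4 : (C (c : ℂ) * P.map (Int.castRingHom ℂ)) ≠ 0 := by
      intro h
      rw [h1, h, zero_mul] at hD0
      exact hD0 rfl
    rw [h1, rootMultiplicity_mul (h1 ▸ hD0), rootMultiplicity_eq_zero h3, add_zero,
      rootMultiplicity_mul h4, rootMultiplicity_C, zero_add, hPC, dis_mult ha d l]
  -- the other zeros
  have hother : ∀ β : ℂ, D.IsRoot β → (∃ l, |κ| = 2 ∧ β = a l) ∨ D.rootMultiplicity β = 1 := by
    intro β hβ
    have hpos := (rootMultiplicity_pos hD0).2 hβ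
    have h1 := hβ
    rw [IsRoot.def, hDD, eval_sub, eval_pow, eval_C] at h1
    have h5 : (Q.eval β - 2) * (Q.eval β + 2) = 0 := by linear_combination h1
    have main : ∀ μ : ℤ, |μ| ≤ 4 → (μ = 0 → |κ| = 2) → (c : ℂ) * aeval β P = -(μ : ℂ) →
        (∃ l, |κ| = 2 ∧ β = a l) ∨ D.rootMultiplicity β = 1 := by
      intro μ hμ hμκ h
      by_cases hμ0 : μ = 0
      · left
        rw [hμ0, Int.cast_zero, neg_zero, mul_eq_zero, or_iff_right hcc] at h
        have h6 : (∏ j, (X - C (a j : ℂ)) ^ d j : ℂ[X]).eval β = 0 := by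
          rw [← hPC, eval_map]
          exact h
        obtain ⟨l, hl⟩ := dis_root h6
        exact ⟨l, hμκ hμ0, hl⟩
      · right
        by_contra hne
        have hlt : 1 < D.rootMultiplicity β := by omega
        obtain ⟨-, h2⟩ := (one_lt_rootMultiplicity_iff_isRoot hD0).1 hlt
        rw [IsRoot.def, hDD, derivative_sub, derivative_C, sub_zero, derivative_sq, eval_mul,
          eval_mul, eval_C] at h2
        have h3 : Q.eval β ≠ 0 := by
          intro h
          rw [h] at h1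
          norm_num at h1
        have h4 : (derivative Q).eval β = 0 := by
          rcases mul_eq_zero.1 h2 with h | h
          · rcases mul_eq_zero.1 h with h | h
            · norm_num at h
            · exact absurd h h3
          · exact h
        rw [hdv, mul_eq_zero, or_iff_right hcc] at h4
        exact dis_key hPm hPd hc hμ0 hμ hpc hg hp h h4
    rcases mul_eq_zero.1 h5 with h | h
    · refine main (κ - 2) (abs_le.2 ⟨by omega, by omega⟩) (fun h0 => ?_) ?_
      · have : κ = 2 := by omega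
        rw [this]; rfl
      · rw [hev] at h
        push_cast
        linear_combination h
    · refine main (κ + 2) (abs_le.2 ⟨by omega, by omega⟩) (fun h0 => ?_) ?_
      · have : κ = -2 := by omega
        rw [this]; rfl
      · rw [hev] at h
        push_cast
        linear_combination h
  set S : Finset (Fin (g + 1)) := Finset.univ.filter fun l => d l = 2 with hS
  set E : Finset ℂ := S.image fun l => (a l : ℂ) with hE
  have hEc : E.card = S.card :=
    Finset.card_image_of_injective _ fun i j hij => ha (Int.cast_injective (α := ℂ) hij)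
  have hEm : ∀ β ∈ E, D.rootMultiplicity β = 2 := by
    intro β hβ
    obtain ⟨l, hl, rfl⟩ := Finset.mem_image.1 hβ
    have h2 := (Finset.mem_filter.1 hl).2
    have hκ2 : |κ| = 2 := by
      rcases hd l with h | h
      · omega
      · exact h.2
    rw [hzero hκ2 l, h2]
  have hEsub : E ⊆ D.roots.toFinset := by
    intro β hβ
    rw [Multiset.mem_toFinset, mem_roots hD0, ← rootMultiplicity_pos hD0, hEm β hβ]
    exact two_pos
  have hout : ∀ β ∈ D.roots.toFinset \ E, D.rootMultiplicity β = 1 := by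
    intro β hβ
    rw [Finset.mem_sdiff, Multiset.mem_toFinset, mem_roots hD0] at hβ
    rcases hother β hβ.1 with ⟨l, hκ2, rfl⟩ | h
    · rw [hzero hκ2 l]
      rcases hd l with h | h
      · exact h
      · exact absurd (Finset.mem_image.2 ⟨l, Finset.mem_filter.2 ⟨Finset.mem_univ _, h.1⟩, rfl⟩)
          hβ.2
    · exact h
  have hsum : (D.roots.toFinset \ E).card + 2 * E.card = 2 * (m + 1) := by
    rw [← hDd, (IsAlgClosed.splits D).natDegree_eq_card_roots,
      ← Multiset.toFinset_sum_count_eq, ← Finset.sum_sdiff hEsub]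
    congr 1
    · rw [Finset.card_eq_sum_ones]
      exact Finset.sum_congr rfl fun β hβ => by rw [count_roots, hout β hβ]
    · rw [mul_comm, ← smul_eq_mul, ← Finset.sum_const]
      exact Finset.sum_congr rfl fun β hβ => by rw [count_roots, hEm β hβ]
  have hset : {β : ℂ | Odd (D.rootMultiplicity β)} = ((D.roots.toFinset \ E : Finset ℂ) : Set ℂ) := by
    ext β
    rw [Set.mem_ofPred_eq, Finset.mem_coe]
    constructor
    · intro h
      rw [Finset.mem_sdiff, Multiset.mem_toFinset, mem_roots hD0, ← rootMultiplicity_pos hD0]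
      refine ⟨h.pos, fun hβ => ?_⟩
      rw [hEm β hβ] at h
      exact (Nat.not_odd_iff_even.2 even_two) h
    · intro h
      rw [hout β h]
      exact odd_one
  rw [hD, BPG.genus, hset, Set.ncard_coe_finset]
  omega

end Pool.Agent.ETO
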