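import Pool.Agent.ETO.Dis

/-!
# The genus of the curve

`(c ∏ (X - a i) ^ d i + κ)² - 4` is a squarefree polynomial of degree `2 g + 2` times a square.
-/

open scoped BigOperators Polynomial
open Polynomial

namespace Pool.Agent.ETO

/-- `F² - 4 = H E²` where `H` is squarefree of degree `2 g + 2`; then `w + w⁻¹ = F(x)` is the
hyperelliptic curve `y² = H(x)`, `y = (w - w⁻¹) / E(x)`, of genus `g`. -/
def HypGenus (g : ℕ) (F : ℚ[X]) : Prop :=
  ∃ H E : ℚ[X], Squarefree H ∧ H.natDegree = 2 * g + 2 ∧ F ^ 2 - 4 = H * E ^ 2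

private theorem DisB_fac {n : ℕ} (a : Fin n → ℚ) (d : Fin n → ℕ) (c κ : ℚ)
    (hd : ∀ i, d i = 1 ∨ (d i = 2 ∧ κ ^ 2 = 4)) :
    ∃ H : ℚ[X], (C c * ∏ i, (X - C (a i)) ^ d i + C κ) ^ 2 - 4 =
      H * (∏ i, (X - C (a i)) ^ (d i - 1)) ^ 2 := by
  by_cases hκ : κ ^ 2 = 4
  · have h1 : ∏ i, (X - C (a i)) ^ d i =
        (∏ i, (X - C (a i)) ^ (2 - d i)) * (∏ i, (X - C (a i)) ^ (d i - 1)) ^ 2 := by
      rw [← Finset.prod_pow, ← Finset.prod_mul_distrib]
      refine Finset.prod_congr rfl fun i _ => ?_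
      rcases hd i with h | h
      · rw [h]
        simp
      · rw [h.1]
        simp
    refine ⟨C c * (∏ i, (X - C (a i)) ^ (2 - d i)) *
      (C c * ∏ i, (X - C (a i)) ^ d i + C (2 * κ)), ?_⟩
    have h2 : C κ ^ 2 = (4 : ℚ[X]) := by
      rw [← C_pow, hκ]
      exact map_ofNat C 4
    have h3 : (C (2 * κ) : ℚ[X]) = 2 * C κ := by
      rw [C_mul]
      congr 1
    rw [h3, h1]
    linear_combination h2
  · have h1 : ∀ i, d i = 1 := fun i => (hd i).resolve_right fun h => hκ h.2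
    exact ⟨_, by simp [h1]; rfl⟩

theorem hypGenus {g : ℕ} (hg0 : 0 < g) {a : Fin (g + 1) → ℤ} (ha : Function.Injective a)
    {d : Fin (g + 1) → ℕ} {c κ : ℤ} (hd : ∀ i, d i = 1 ∨ (d i = 2 ∧ |κ| = 2))
    (hc : c ≠ 0) (hκ : |κ| ≤ 2) {p : ℕ} [Fact p.Prime] (hν : padicValInt p c ≠ 0)
    (hg : ¬ p ∣ ∑ i, d i) (hp : 4 < p) :
    HypGenus g (C (c : ℚ) * ∏ i, (X - C (a i : ℚ)) ^ d i + C (κ : ℚ)) := by
  classical
  have h1 := genus_eq ha hd hc hκ hν hg hp
  have hdp : ∀ i, 0 < d i := fun i => by rcases hd i with h | h <;> omega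
  have hc' : (c : ℚ) ≠ 0 := Int.cast_ne_zero.2 hc
  have hsum : ∑ i, d i = (g + 1) + ∑ i, (d i - 1) := by
    have h2 : ∀ i, d i = 1 + (d i - 1) := fun i => by have := hdp i; omega
    calc ∑ i, d i = ∑ i, (1 + (d i - 1)) := Finset.sum_congr rfl fun i _ => h2 i
      _ = _ := by rw [Finset.sum_add_distrib]; simp
  obtain ⟨H, hH⟩ := DisB_fac (fun i => (a i : ℚ)) d (c : ℚ) (κ : ℚ) fun i =>
    (hd i).imp_right fun h => ⟨h.1, by
      have h2 : κ ^ 2 = 4 := by rw [← sq_abs, h.2]; norm_num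
      exact_mod_cast h2⟩
  obtain ⟨F, hF⟩ : ∃ F : ℚ[X], F = C (c : ℚ) * ∏ i, (X - C (a i : ℚ)) ^ d i + C (κ : ℚ) :=
    ⟨_, rfl⟩
  obtain ⟨E, hE⟩ : ∃ E : ℚ[X], E = ∏ i, (X - C (a i : ℚ)) ^ (d i - 1) := ⟨_, rfl⟩
  rw [← hF, ← hE] at hH
  rw [← hF]
  have hFd : F.natDegree = ∑ i, d i := by
    rw [hF, natDegree_add_C, natDegree_C_mul hc',
      natDegree_prod_of_monic _ _ fun i _ => (monic_X_sub_C _).pow _]
    exact Finset.sum_congr rfl fun i _ => by rw [natDegree_pow, natDegree_X_sub_C, mul_one]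
  have hEm : E.Monic := by
    rw [hE]
    exact monic_prod_of_monic _ _ fun i _ => (monic_X_sub_C _).pow _
  have hEd : E.natDegree = ∑ i, (d i - 1) := by
    rw [hE, natDegree_prod_of_monic _ _ fun i _ => (monic_X_sub_C _).pow _]
    exact Finset.sum_congr rfl fun i _ => by rw [natDegree_pow, natDegree_X_sub_C, mul_one]
  have hDd : (F ^ 2 - 4).natDegree = 2 * ∑ i, d i := by
    have h4 : (4 : ℚ[X]) = C 4 := (map_ofNat C 4).symm
    rw [h4, natDegree_sub_C, natDegree_pow, hFd]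
  have hD0 : F ^ 2 - 4 ≠ 0 := by
    intro h
    rw [h, natDegree_zero] at hDd
    omega
  have hH0 : H ≠ 0 := by
    rintro rfl
    exact hD0 (by rw [hH, zero_mul])
  have hHd : H.natDegree = 2 * g + 2 := by
    have h2 := hDd
    rw [hH, natDegree_mul hH0 (pow_ne_zero 2 hEm.ne_zero), natDegree_pow, hEd] at h2
    omega
  refine ⟨H, E, ?_, hHd, hH⟩
  have hD : BPG.disc (fun i => X - C (a i)) d c κ 1 =
      (H.map (algebraMap ℚ ℂ)) * (E.map (algebraMap ℚ ℂ)) ^ 2 := by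
    rw [← Polynomial.map_pow, ← Polynomial.map_mul, ← hH, BPG.disc, hF]
    simp [Polynomial.map_prod]
    exact map_ofNat C 4
  have hinj : Function.Injective (algebraMap ℚ ℂ) := (algebraMap ℚ ℂ).injective
  obtain ⟨H', hH'⟩ : ∃ H' : ℂ[X], H' = H.map (algebraMap ℚ ℂ) := ⟨_, rfl⟩
  obtain ⟨E', hE'⟩ : ∃ E' : ℂ[X], E' = E.map (algebraMap ℚ ℂ) := ⟨_, rfl⟩
  rw [hD, ← hH', ← hE', BPG.genus] at h1
  have hH'd : H'.natDegree = 2 * g + 2 := by
    rw [hH', natDegree_map_eq_of_injective hinj, hHd]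
  have hH'0 : H' ≠ 0 := by
    intro h
    rw [h, natDegree_zero] at hH'd
    omega
  have hE'0 : E' ≠ 0 := by
    rw [hE']
    exact (hEm.map _).ne_zero
  have hsub : {β : ℂ | Odd ((H' * E' ^ 2).rootMultiplicity β)} ⊆ (H'.roots.toFinset : Set ℂ) := by
    intro β hβ
    rw [Set.mem_ofPred_eq, rootMultiplicity_mul (mul_ne_zero hH'0 (pow_ne_zero 2 hE'0)),
      pow_two, rootMultiplicity_mul (mul_ne_zero hE'0 hE'0)] at hβ
    rw [Finset.mem_coe, Multiset.mem_toFinset, mem_roots hH'0, ← rootMultiplicity_pos hH'0]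
    obtain ⟨k, hk⟩ := hβ
    omega
  have hcard := Set.ncard_le_ncard hsub (Finset.finite_toSet _)
  rw [Set.ncard_coe_finset] at hcard
  have h3 : H'.roots.card = 2 * g + 2 := by
    rw [← hH'd]
    exact (IsAlgClosed.splits H').natDegree_eq_card_roots.symm
  have hnd : H'.roots.Nodup := by
    rw [← Multiset.toFinset_card_eq_card_iff_nodup]
    exact le_antisymm (Multiset.toFinset_card_le _) (by omega)
  have hsep : H'.Separable := (nodup_roots_iff_of_splits hH'0 (IsAlgClosed.splits H')).1 hnd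
  rw [hH', separable_map] at hsep
  exact hsep.squarefree

end Pool.Agent.ETO
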