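import Pool.Agent.EVT.Van
import Pool.Agent.ETO.Ram

/-!
# The `p`-adic argument

A root `x0` of `c α ∏ (X - a l) = D(α)` has value prime to `g + 1`, and `EVT.van` applies.
-/

open scoped BigOperators Polynomial
open Polynomial

namespace Pool.Agent.ETO

open Pool.Agent.ETU Pool.Agent.ETI Pool.Agent.ETI

private theorem VanC_ev {M : Type} [Field M] [CharZero M] {g : ℕ} (a : Fin (g + 1) → ℤ)
    (d : Fin (g + 1) → ℕ) (c κ : ℤ) (α y : M) : ev2 α y (Ey a d c κ) =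
      ∏ i, (y - a i * α) ^ d i - (c : M)⁻¹ * α ^ (∑ i, d i - 1) * aeval α (Dq κ) := by
  have hC : ∀ q : ℚ[X], ev2 α y (C q) = aeval α q := by
    intro q
    unfold ev2
    rw [coe_eval₂RingHom, eval₂_C]
    rfl
  have hX : ev2 α y X = y := by
    unfold ev2
    rw [coe_eval₂RingHom, eval₂_X]
  unfold Ey
  rw [map_sub, map_prod, hC]
  congr 1
  · refine Finset.prod_congr rfl fun i _ => ?_
    rw [map_pow, map_sub, hX, hC, map_mul, aeval_C, aeval_X]
    simp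
  · rw [map_mul, map_mul, aeval_C, map_pow, aeval_X]
    have h : aeval α ((Dq κ).map (Int.castRingHom ℚ)) = aeval α (Dq κ) :=
      Polynomial.aeval_map_algebraMap ℚ α (Dq κ)
    rw [h]
    simp

theorem van_core {p : ℕ} [Fact p.Prime] {g : ℕ} {a e : Fin (g + 1) → ℤ}
    {d : Fin (g + 1) → ℕ} {c κ : ℤ} (hd : ∀ i, 0 < d i) (hg : 1 < ∑ i, d i) (hc : c ≠ 0) (hν : (∑ i, d i).Coprime (padicValInt p c))
    (ha : ∀ i j, i ≠ j → ¬ (p : ℤ) ∣ a i - a j)
    {F : IntermediateField ℚ_[p] (PadicAlgCl p)} (hF : Tm p (∑ i, d i) F) {α : PadicAlgCl p}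
    (hαF : α ∈ F) (h1 : ‖α‖ = 1) (h2 : ‖aeval α (Dq κ)‖ = 1) (hs : ∑ l, e l = 0)
    {ρ : PadicAlgCl p} (hρ : ρ ∈ F) {M : ℕ} (hM : 0 < M)
    (hyp : ∀ x0 : PadicAlgCl p, (c : PadicAlgCl p) * α * ∏ l, (x0 - a l) ^ d l = aeval α (Dq κ) →
      (∏ l, (x0 - a l) ^ e l) ^ M = ρ) : e = 0 := by
  have hν0 : padicValInt p c ≠ 0 := by
    intro h
    rw [h, Nat.coprime_zero_right] at hν
    omega
  have hα0 : α ≠ 0 := by
    rintro rfl
    rw [norm_zero] at h1
    exact zero_ne_one h1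
  have hc0 : (c : PadicAlgCl p) ≠ 0 := Int.cast_ne_zero.2 hc
  have hDF : aeval α (Dq κ) ∈ F := by
    unfold Dq
    rw [map_add, map_sub, map_mul, map_pow, aeval_X, aeval_C, map_one]
    refine F.add_mem (F.sub_mem (pow_mem hαF 2) (F.mul_mem ?_ hαF)) F.one_mem
    rw [eq_intCast]
    exact intCast_mem F κ
  set γ : PadicAlgCl p := aeval α (Dq κ) / (c * α) with hγ
  have hγF : γ ∈ F := F.div_mem hDF (F.mul_mem (intCast_mem F c) hαF)
  -- a root
  obtain ⟨x0, hx0⟩ : ∃ x0 : PadicAlgCl p, ∏ l, (x0 - a l) ^ d l = γ := by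
    have hnd : (∏ l, (X - C ((a l : ℤ) : PadicAlgCl p)) ^ d l).natDegree = ∑ l, d l := by
      rw [natDegree_prod_of_monic _ _ fun i _ => (monic_X_sub_C _).pow _]
      exact Finset.sum_congr rfl fun i _ => by rw [natDegree_pow, natDegree_X_sub_C, mul_one]
    have hdeg : (∏ l, (X - C ((a l : ℤ) : PadicAlgCl p)) ^ d l - C γ).degree ≠ 0 := by
      have h3 : (∏ l, (X - C ((a l : ℤ) : PadicAlgCl p)) ^ d l - C γ).natDegree =
          ∑ l, d l := by
        rw [natDegree_sub_C, hnd]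
      intro h4
      have h5 : (∏ l, (X - C ((a l : ℤ) : PadicAlgCl p)) ^ d l - C γ).natDegree = 0 :=
        natDegree_eq_of_degree_eq_some h4
      omega
    obtain ⟨x0, hr⟩ := IsAlgClosed.exists_root _ hdeg
    refine ⟨x0, ?_⟩
    rw [IsRoot.def, eval_sub, eval_C, eval_prod, sub_eq_zero] at hr
    rw [← hr]
    exact Finset.prod_congr rfl fun i _ => by rw [eval_pow, eval_sub, eval_X, eval_C]
  have hx0' : (c : PadicAlgCl p) * α * ∏ l, (x0 - a l) ^ d l = aeval α (Dq κ) := by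
    rw [hx0, hγ]
    field_simp
  -- its norm
  have hy : ev2 α (α * x0) (Ey a d c κ) = 0 := by
    rw [VanC_ev]
    have h3 : ∏ i, (α * x0 - a i * α) ^ d i = α ^ (∑ i, d i) * ∏ i, (x0 - a i) ^ d i := by
      have h4 : ∀ i, (α * x0 - a i * α) ^ d i = α ^ d i * (x0 - a i) ^ d i := fun i => by
        rw [← mul_pow]
        congr 1
        ring
      rw [Finset.prod_congr rfl fun i _ => h4 i, Finset.prod_mul_distrib,
        Finset.prod_pow_eq_pow_sum]
    have h6 : α ^ (∑ i, d i) = α ^ (∑ i, d i - 1) * α := by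
      rw [← pow_succ]
      congr 1
      omega
    rw [h3, hx0, hγ, h6]
    have h5 : α ^ (∑ i, d i - 1) * α * (aeval α (Dq κ) / (c * α)) =
        (c : PadicAlgCl p)⁻¹ * α ^ (∑ i, d i - 1) * aeval α (Dq κ) := by
      field_simp
    rw [h5]
    exact sub_self _
  have hn : ‖x0‖ ^ (∑ i, d i) = (p : ℝ) ^ ((padicValInt p c : ℕ) : ℤ) := by
    have h3 := ram hc hν0 h1 h2 hy
    rw [norm_mul, h1, one_mul, Pool.Agent.EVT.norm_pp, inv_zpow, zpow_neg, inv_inv] at h3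
    exact h3
  have hH : (∏ i, (x0 - a i) ^ e i) ^ M ∈ F := by
    rw [hyp x0 hx0']
    exact hρ
  refine Pool.Agent.EVT.van (m := ∑ i, d i) (by omega) hF.cop hF.tame ha
    (e := d) hd rfl hγF hx0
    (v := ((padicValInt p c : ℕ) : ℤ)) ?_ (by exact_mod_cast Nat.pos_of_ne_zero hν0) hn hs hM hH
  exact (Nat.isCoprime_iff_coprime.2 hν).symm

end Pool.Agent.ETO
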