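import Pool.Agent.ETO.Uni
import Pool.Agent.ETI.VanT
import Pool.Agent.ETO.VanC

/-!
# MODULE ETI-Van : the functions at the `f j`, `j ≠ 0`, vanish

`P` is a monic irreducible factor of `f j` over `ℚ`, `O` a place where `P(v)` is small; `x` and `v` are integral
at `O`, and `v`, `D(v)`, the other `f i (v)` and the `x - a l` are units. The tame symbol at `O` (`van_tame`), the
residue field (`Crv.ker_H`) and the `p`-adic argument (`van_core`) give `e j = 0`.
-/

open scoped BigOperators Polynomial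
open Polynomial

namespace Pool.Agent.ETO

open Pool.Agent.ETU Pool.Agent.ETI Pool.Agent.CST Pool.Agent.Helper11 Pool.Agent.ISI

private theorem van_tr {K : Type} [Field K] [CharZero K] {g : K} (hg : Transcendental ℚ g)
    {π : ℚ[X]} (hπ : 0 < π.natDegree) : Transcendental ℚ (aeval g π) := by
  rw [transcendental_iff] at hg ⊢
  intro p hp
  have h1 : aeval g (p.comp π) = 0 := by rw [aeval_comp, hp]
  have h2 := hg _ h1
  by_contra hp0
  have h3 : (p.comp π).natDegree = p.natDegree * π.natDegree := natDegree_comp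
  rw [h2, natDegree_zero] at h3
  have h4 : p.natDegree = 0 := by
    rcases Nat.mul_eq_zero.1 h3.symm with h | h
    · exact h
    · omega
  obtain ⟨c, rfl⟩ : ∃ c, p = C c := ⟨_, eq_C_of_natDegree_eq_zero h4⟩
  rw [C_comp] at h2
  exact hp0 h2

private theorem van_place {K : Type} [Field K] [CharZero K] {g : K} (hg : Transcendental ℚ g)
    (hK : FiniteDimensional (IntermediateField.adjoin ℚ {g}) K) {π : ℚ[X]} (hm : π.Monic)
    (hi : Irreducible π) :
    ∃ O : ValuationSubring K, IsPl O ∧ O.valuation (aeval g π) < 1 ∧ g ∈ O := by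
  have h1 : 0 < π.natDegree := hi.natDegree_pos
  have h2 := van_tr hg h1
  obtain ⟨O, hO, h3⟩ := exists_zero h2 (finite_of_transcendental hK h2)
  refine ⟨O, hO, h3, ?_⟩
  by_contra hgO
  have h : 1 < O.valuation g := by
    rw [← not_le]
    exact fun h => hgO ((O.valuation_le_one_iff _).1 h)
  have h4 : O.valuation (aeval g π) = O.valuation g ^ π.natDegree := by
    have h5 : aeval g π = g ^ π.natDegree + ∑ i ∈ Finset.range π.natDegree,
        ((π.coeff i : ℚ) : K) * g ^ i := by
      rw [aeval_eq_sum_range, Finset.sum_range_succ, add_comm]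
      congr 1
      · rw [coeff_natDegree, hm.leadingCoeff, one_smul]
      · refine Finset.sum_congr rfl fun i _ => ?_
        rw [Algebra.smul_def, eq_ratCast]
    have h6 : O.valuation (∑ i ∈ Finset.range π.natDegree,
        ((π.coeff i : ℚ) : K) * g ^ i) < O.valuation g ^ π.natDegree := by
      refine Valuation.map_sum_lt _ (pow_ne_zero _ (by
        intro h0
        rw [h0] at h
        exact not_lt_bot h)) fun i hi => ?_
      rw [map_mul, map_pow]
      have h7 := (O.valuation_le_one_iff _).2 (hO.2 (π.coeff i))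
      exact (mul_le_of_le_one_left' h7).trans_lt
        (pow_lt_pow_right₀ h (Finset.mem_range.1 hi))
    rw [h5, Valuation.map_add_eq_of_lt_left, map_pow]
    rwa [map_pow]
  rw [h4] at h3
  exact absurd h3 (not_lt.2 (one_le_pow₀ h.le))

private theorem van_mem {K : Type} [Field K] [CharZero K] {O : ValuationSubring K} (hO : IsPl O)
    {t : K} (ht : t ∈ O) (Q : ℚ[X]) : O.valuation (aeval t Q) ≤ 1 := by
  rw [O.valuation_le_one_iff, aeval_eq_sum_range]
  refine sum_mem fun i _ => ?_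
  rw [Algebra.smul_def, eq_ratCast]
  exact mul_mem (hO.2 _) (pow_mem ht _)

/-- a polynomial which is not divisible by `P` is a unit at the places over `P` -/
private theorem van_unit {K : Type} [Field K] [CharZero K] {O : ValuationSubring K} (hO : IsPl O)
    {t : K} (ht : t ∈ O) {P Q : ℚ[X]} (hP : Irreducible P) (hPQ : ¬ P ∣ Q)
    (hv : O.valuation (aeval t P) < 1) : O.valuation (aeval t Q) = 1 := by
  obtain ⟨U, V, hUV⟩ := (hP.coprime_iff_not_dvd).2 hPQ
  have h1 : aeval t U * aeval t P + aeval t V * aeval t Q = 1 := by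
    rw [← map_mul, ← map_mul, ← map_add, hUV, map_one]
  by_contra hne
  have hlt : O.valuation (aeval t Q) < 1 := lt_of_le_of_ne (van_mem hO ht Q) hne
  have h2 : O.valuation (aeval t U * aeval t P + aeval t V * aeval t Q) < 1 := by
    refine Valuation.map_add_lt _ ?_ ?_
    · rw [map_mul]
      exact (mul_le_of_le_one_left' (van_mem hO ht U)).trans_lt hv
    · rw [map_mul]
      exact (mul_le_of_le_one_left' (van_mem hO ht V)).trans_lt hlt
  rw [h1, map_one] at h2
  exact lt_irrefl _ h2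

private theorem van_rat {K : Type} [Field K] [CharZero K] {O : ValuationSubring K} (hO : IsPl O)
    {q : ℚ} (hq : q ≠ 0) : O.valuation (q : K) = 1 := by
  have h1 : O.valuation (q : K) ≤ 1 := (O.valuation_le_one_iff _).2 (hO.2 q)
  have h2 : O.valuation ((q : K)⁻¹) ≤ 1 := (O.valuation_le_one_iff _).2 (by
    have := hO.2 q⁻¹
    rwa [Rat.cast_inv] at this)
  rw [map_inv₀] at h2
  have h3 : O.valuation (q : K) ≠ 0 := (O.valuation.ne_zero_iff).2 (Rat.cast_ne_zero.2 hq)
  exact le_antisymm h1 ((inv_le_one₀ (zero_lt_iff.2 h3)).1 h2)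

/-- the `x - a l` are units if their product is one -/
private theorem van_fac {K : Type} [Field K] [CharZero K] {O : ValuationSubring K} (hO : IsPl O)
    {g : ℕ} {x : K} {a : Fin (g + 1) → ℤ} {d : Fin (g + 1) → ℕ} (hd : ∀ i, 0 < d i)
    (hm : 0 < ∑ i, d i) (h : O.valuation (∏ l, (x - a l) ^ d l) = 1)
    (l : Fin (g + 1)) : O.valuation (x - a l) = 1 := by
  have hz : ∀ i, O.valuation ((a i : ℤ) : K) ≤ 1 := fun i => by
    rw [O.valuation_le_one_iff]
    have := hO.2 ((a i : ℤ) : ℚ)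
    rwa [Rat.cast_intCast] at this
  have hx : O.valuation x ≤ 1 := by
    by_contra hx
    push Not at hx
    have h1 : ∀ i, O.valuation (x - a i) = O.valuation x := fun i =>
      Valuation.map_sub_eq_of_lt_left _ ((hz i).trans_lt hx)
    rw [map_prod, Finset.prod_congr rfl fun i _ => by rw [map_pow, h1 i],
      Finset.prod_pow_eq_pow_sum] at h
    have h2 : 1 < O.valuation x ^ (∑ i, d i) := one_lt_pow₀ hx hm.ne'
    rw [h] at h2
    exact lt_irrefl _ h2
  have hle : ∀ i, O.valuation (x - a i) ≤ 1 := fun i =>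
    (Valuation.map_sub _ _ _).trans (max_le hx (hz i))
  by_contra hne
  have hlt : O.valuation (x - a l) < 1 := lt_of_le_of_ne (hle l) hne
  rw [map_prod, ← Finset.mul_prod_erase _ _ (Finset.mem_univ l)] at h
  have h3 : ∏ i ∈ Finset.univ.erase l, O.valuation ((x - a i) ^ d i) ≤ 1 :=
    Finset.prod_le_one' fun i _ => by
      rw [map_pow]
      exact pow_le_one' (hle i) _
  have hlt' : O.valuation ((x - a l) ^ d l) < 1 := by
    rw [map_pow]
    exact pow_lt_one₀ zero_le hlt (hd l).ne'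
  have h4 : O.valuation ((x - a l) ^ d l) *
      ∏ i ∈ Finset.univ.erase l, O.valuation ((x - a i) ^ d i) < 1 :=
    (mul_le_of_le_one_right' h3).trans_lt hlt'
  rw [h] at h4
  exact lt_irrefl _ h4

private theorem van_Hf {K : Type} [Field K] [CharZero K] {O : ValuationSubring K} {g : ℕ} {x : K}
    (hx : Transcendental ℚ x) {a : Fin (g + 1) → ℤ} (h : ∀ l, O.valuation (x - a l) = 1)
    (e : Fin (g + 1) → ℤ) : O.valuation (Hf x a e : K) = 1 := by
  unfold Hf
  rw [Units.coe_prod, map_prod]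
  refine Finset.prod_eq_one fun l _ => ?_
  rw [Units.val_zpow_eq_zpow_val, map_zpow₀, xa_val hx, h l, one_zpow]

private theorem van_cl {p : ℕ} [Fact p.Prime] (F : IntermediateField ℚ_[p] (PadicAlgCl p))
    {α : PadicAlgCl p} (hα : α ∈ F) (A : ℚ[X]) : aeval α A ∈ F := by
  rw [aeval_eq_sum_range]
  refine sum_mem fun i _ => ?_
  rw [Algebra.smul_def, eq_ratCast]
  exact mul_mem (SubfieldClass.ratCast_mem F _) (pow_mem hα _)

private theorem van_nz {p : ℕ} [Fact p.Prime] {P B : ℚ[X]} (hP : Irreducible P) (hB : ¬ P ∣ B)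
    {α : PadicAlgCl p} (hα : aeval α P = 0) : aeval α B ≠ 0 := by
  intro h0
  obtain ⟨U, V, hUV⟩ := (hP.coprime_iff_not_dvd).2 hB
  have h1 := congrArg (aeval α) hUV
  rw [map_add, map_mul, map_mul, hα, h0, mul_zero, mul_zero, add_zero, map_one] at h1
  exact zero_ne_one h1

theorem Crv.van {g : ℕ} {a : Fin (g + 1) → ℤ} {d : Fin (g + 1) → ℕ} {c κ : ℤ}
    {K : Type} [Field K] [CharZero K] {x : K} {v : Kˣ} (H : Crv a d c κ x v) {p : ℕ} [Fact p.Prime]
    {r : ℕ} {f : Fin (r + 1) → ℤ[X]} (hf0 : f 0 = X) (hp : Prm p a d c κ f)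
    (hcop : ∀ i, i ≠ 0 → IsCoprime ((f i).map (Int.castRingHom ℚ))
      ((Dq κ).map (Int.castRingHom ℚ)))
    {u : Fin (r + 1) → Kˣ} (hu : ∀ i, (u i : K) = aeval (v : K) (f i)) {z β : KMQ K 2} {N : ℕ}
    {e : Fin (r + 1) → Fin (g + 1) → ℤ} (he : ∀ i, ∑ l, e i l = 0) (hβ : β ∈ LP (v : K))
    (hz : (N : ℚ) • z = ∑ i, sy (u i) (Hf x a (e i)) + β) (hzg : z ∈ geomM K)
    {j : Fin (r + 1)} (hj : j ≠ 0) : e j = 0 := by
  have hpp : p.Prime := Fact.out
  -- the factor `P`
  have hfj : ¬ IsUnit ((f j).map (Int.castRingHom ℚ)) := by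
    intro h
    have h1 := natDegree_eq_zero_of_isUnit h
    rw [(hp.fam.mon j).natDegree_map] at h1
    exact (hp.fam.pos j).ne' h1
  obtain ⟨P, hPm, hPi, hPj⟩ := exists_monic_irreducible_factor _ hfj
  have hPf : ∀ i, i ≠ j → ¬ P ∣ (f i).map (Int.castRingHom ℚ) := fun i hij hd =>
    hPi.not_isUnit ((fam_coprime hpp hp.fam hij).isUnit_of_dvd' hd hPj)
  have hPX : ¬ P ∣ X := by
    have h := hPf 0 (Ne.symm hj)
    rwa [hf0, Polynomial.map_X] at h
  have hPD : ¬ P ∣ (Dq κ).map (Int.castRingHom ℚ) := fun hd =>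
    hPi.not_isUnit ((hcop j hj).isUnit_of_dvd' hPj hd)
  have hN : Nice p κ P := hp.nice P hPm hPi hPX hPD (Or.inl ⟨j, hPj⟩)
  -- the point `α`
  obtain ⟨F, hF⟩ := exists_tm (p := p) (m := ∑ i, d i) H.m1 hp.cop
  obtain ⟨α, hα⟩ := IsAlgClosed.exists_aeval_eq_zero (PadicAlgCl p) P
    (degree_pos_of_irreducible hPi).ne'
  have hαF : α ∈ F := nice_mem hF hN hα
  obtain ⟨h1, h2, -⟩ := hN.2 α hα
  -- the place `O`
  obtain ⟨O, hO, hv, hvO⟩ := van_place H.tr_v H.fin hPm hPi
  have hv1 : O.valuation (v : K) = 1 := by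
    have h := van_unit hO hvO hPi hPX hv
    rwa [aeval_X] at h
  have hD1 : O.valuation (aeval (v : K) (Dq κ)) = 1 := by
    have h := van_unit hO hvO hPi hPD hv
    rwa [aeval_map] at h
  have hc1 : O.valuation (c : K) = 1 := by
    have h := van_rat hO (q := (c : ℚ)) (Int.cast_ne_zero.2 H.c0)
    rwa [Rat.cast_intCast] at h
  have hprod : O.valuation (∏ l, (x - a l) ^ d l) = 1 := by
    have h := congrArg O.valuation H.prod
    rwa [map_mul, map_mul, hc1, hv1, hD1, one_mul, one_mul] at h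
  have hfac := van_fac hO H.dpos H.m0 hprod
  have hHf : ∀ i, O.valuation (Hf x a (e i) : K) = 1 := fun i => van_Hf H.tr hfac (e i)
  have huj : O.valuation (u j : K) ≠ 1 := by
    rw [hu j, ← aeval_map]
    obtain ⟨Q, hQ⟩ := hPj
    rw [hQ, map_mul, map_mul]
    exact ((mul_le_of_le_one_right' (van_mem hO hvO Q)).trans_lt hv).ne
  have hui : ∀ i, i ≠ j → O.valuation (u i : K) = 1 := fun i hij => by
    rw [hu i, ← aeval_map]
    exact van_unit hO hvO hPi (hPf i hij) hv
  have hzO : z ∈ unrM O 2 := by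
    have h := (Submodule.mem_iInf _).1 hzg O
    exact (Submodule.mem_iInf _).1 h hO
  obtain ⟨M, A, B, hM, hA, hB, hAB⟩ := van_tame H.tr_v hPm hPi hO hvO hv huj hui hHf hβ hz hzO
  have hB0 := van_nz hPi hB hα
  refine van_core H.dpos H.m1 H.c0 hp.val hp.dis hF hαF h1 h2 (he j)
    (div_mem (van_cl F hαF A) (van_cl F hαF B)) hM ?_
  intro x0 hx0
  rw [eq_div_iff hB0]
  exact H.ker_H hp.val hF hPm hPi hα hαF h1 h2 hO hv (he j) hAB hx0

end Pool.Agent.ETO
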