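import Pool.Agent.ETO.Off
import Pool.Agent.ETO.Dec
import Pool.Agent.ETO.Van
import Pool.Agent.ETO.Fin

/-!
# Assembly of the geometric part
-/

open scoped BigOperators Polynomial
open Polynomial

namespace Pool.Agent.ETO

open Pool.Agent.ETU Pool.Agent.ETI Pool.Agent.CST Pool.Agent.Helper11 Pool.Agent.ISI

theorem Crv.geo {g : ℕ} {a : Fin (g + 1) → ℤ} {d : Fin (g + 1) → ℕ} {c κ : ℤ}
    {K : Type} [Field K] [CharZero K] {x : K} {v : Kˣ} (H : Crv a d c κ x v) {p₁ p₂ : ℕ} [Fact p₁.Prime] [Fact p₂.Prime]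
    (h12 : p₁ ≠ p₂) {r : ℕ} {f : Fin (r + 1) → ℤ[X]} (hf : ∀ i, (f i).Monic) (hf0 : f 0 = X)
    (hp₁ : Prm p₁ a d c κ f) (hp₂ : Prm p₂ a d c κ f)
    (hcop : ∀ i, i ≠ 0 → IsCoprime ((f i).map (Int.castRingHom ℚ))
      ((Dq κ).map (Int.castRingHom ℚ)))
    {u : Fin (r + 1) → Kˣ} (hu : ∀ i, (u i : K) = aeval (v : K) (f i)) {z : KMQ K 2}
    (hz : z ∈ (⨆ i, slM (u i)) ⊔ LP (v : K)) (hzg : z ∈ geomM K) :
    z ∈ Submodule.span ℚ (Set.range fun i : Fin g => sy (xr x a i) v) := by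
  obtain ⟨N, h, β, hN, hβ, hNz, hh⟩ := H.off h12 hf hp₁ hp₂ hu hz hzg
  obtain ⟨N', e, β', hN', he, hβ', hz'⟩ := H.dec (fun i => (hf i).ne_zero) hu hN hβ hNz
    (fun O hO h1 h2 => hh O hO h1 h2)
  have hv0 : u 0 = v := by
    apply Units.ext
    rw [hu 0, hf0, aeval_X]
  have hvan : ∀ j : Fin r, e j.succ = 0 := fun j =>
    H.van hf0 hp₁ hcop hu he hβ' hz' hzg (Fin.succ_ne_zero j)
  refine H.fin_mem hN' (he 0) hβ' ?_ hzg
  rw [hz', Fin.sum_univ_succ, hv0]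
  have h0 : ∀ j : Fin r, sy (u j.succ) (Hf x a (e j.succ)) = 0 := by
    intro j
    rw [hvan j]
    have h1 : Hf x a (0 : Fin (g + 1) → ℤ) = 1 := by
      unfold Hf
      exact Finset.prod_eq_one fun l _ => zpow_zero _
    rw [h1, sy_one_right]
  rw [Finset.sum_eq_zero fun j _ => h0 j, add_zero]

end Pool.Agent.ETO
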