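import Pool.Agent.ETI.Nic
import Pool.Agent.ETO.Defs
import Pool.Agent.ETU.HgC

/-!
# All large primes are fine

The conditions of `Prm` hold for all large primes: the exceptional points are finitely many
(`height_fin`), each of them is nice at all large primes (`nice_of_large`), and a squarefree polynomial
stays squarefree modulo all large primes (reduction of a Bezout relation with the derivative).
-/

open scoped BigOperators Polynomial
open Polynomial

namespace Pool.Agent.ETO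

open Pool.Agent.ETU Pool.Agent.ETI Pool.Agent.ETI

private theorem Prm_norm (U : ℚ[X]) :
    ∃ (d : ℤ) (U' : ℤ[X]), d ≠ 0 ∧ U'.map (Int.castRingHom ℚ) = C (d : ℚ) * U := by
  obtain ⟨b, hb, h⟩ := IsLocalization.integerNormalization_spec (nonZeroDivisors ℤ) U
  refine ⟨b, IsLocalization.integerNormalization (nonZeroDivisors ℤ) U,
    nonZeroDivisors.ne_zero hb, ?_⟩
  rw [← algebraMap_int_eq, h, ← smul_eq_C_mul]
  exact (Int.cast_smul_eq_zsmul ℚ b U).symm

private theorem Prm_sqf {G : ℤ[X]} (hG : Squarefree (G.map (Int.castRingHom ℚ))) :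
    ∃ C : ℕ, ∀ (p : ℕ) [Fact p.Prime], C < p → Squarefree (G.map (Int.castRingHom (ZMod p))) := by
  have h1 : (G.map (Int.castRingHom ℚ)).Separable := PerfectField.separable_iff_squarefree.2 hG
  obtain ⟨U, V, hUV⟩ := h1
  obtain ⟨d1, U', hd1, hU'⟩ := Prm_norm U
  obtain ⟨d2, V', hd2, hV'⟩ := Prm_norm V
  have h2 : C d2 * U' * G + C d1 * V' * derivative G = C (d1 * d2) := by
    apply Polynomial.map_injective (Int.castRingHom ℚ) Int.cast_injective
    rw [Polynomial.map_add, Polynomial.map_mul, Polynomial.map_mul, Polynomial.map_mul,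
      Polynomial.map_mul, Polynomial.map_C, Polynomial.map_C, Polynomial.map_C,
      ← Polynomial.derivative_map, hU', hV', map_mul, C_mul, eq_intCast, eq_intCast]
    linear_combination (C (d1 : ℚ) * C (d2 : ℚ)) * hUV
  refine ⟨(d1 * d2).natAbs, fun p _ hp => ?_⟩
  have h3 : ((d1 * d2 : ℤ) : ZMod p) ≠ 0 := by
    intro h
    rw [ZMod.intCast_zmod_eq_zero_iff_dvd] at h
    have h4 : p ∣ (d1 * d2).natAbs := by
      have := Int.natAbs_dvd_natAbs.2 h
      rwa [Int.natAbs_natCast] at this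
    exact absurd (Nat.le_of_dvd (Int.natAbs_pos.2 (mul_ne_zero hd1 hd2)) h4) (not_le.2 hp)
  refine Polynomial.Separable.squarefree ?_
  refine ⟨C ((d1 * d2 : ℤ) : ZMod p)⁻¹ * (C d2 * U').map (Int.castRingHom (ZMod p)),
    C ((d1 * d2 : ℤ) : ZMod p)⁻¹ * (C d1 * V').map (Int.castRingHom (ZMod p)), ?_⟩
  have h5 := congrArg (Polynomial.map (Int.castRingHom (ZMod p))) h2
  have h6 : (C d1 * V' * derivative G).map (Int.castRingHom (ZMod p)) =
      (C d1 * V').map (Int.castRingHom (ZMod p)) *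
        (derivative G).map (Int.castRingHom (ZMod p)) := Polynomial.map_mul _
  rw [Polynomial.map_add, Polynomial.map_mul, h6, Polynomial.map_C,
    eq_intCast (Int.castRingHom (ZMod p)) (d1 * d2),
    ← Polynomial.derivative_map] at h5
  rw [mul_assoc, mul_assoc, ← mul_add, h5, ← C_mul, inv_mul_cancel₀ h3, C_1]

private theorem Prm_cop {r : ℕ} {f : Fin r → ℤ[X]}
    (hsq : Squarefree ((∏ i, f i).map (Int.castRingHom ℚ))) (i j : Fin r) (hij : i ≠ j) :
    IsCoprime ((f i).map (Int.castRingHom ℚ)) ((f j).map (Int.castRingHom ℚ)) := by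
  classical
  have h1 : f i * f j ∣ ∏ l, f l := by
    rw [← Finset.mul_prod_erase Finset.univ f (Finset.mem_univ i)]
    exact mul_dvd_mul_left _ (Finset.dvd_prod_of_mem f
      (Finset.mem_erase.2 ⟨hij.symm, Finset.mem_univ j⟩))
  have h2 : Squarefree ((f i).map (Int.castRingHom ℚ) * (f j).map (Int.castRingHom ℚ)) := by
    refine hsq.squarefree_of_dvd ?_
    rw [← Polynomial.map_mul]
    exact Polynomial.map_dvd _ h1
  exact (IsRelPrime.of_squarefree_mul h2).isCoprime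

private theorem Prm_factors {F : ℚ[X]} (hF : F ≠ 0) :
    {P : ℚ[X] | P.Monic ∧ Irreducible P ∧ P ∣ F}.Finite := by
  classical
  refine ((UniqueFactorizationMonoid.normalizedFactors F).toFinset.finite_toSet).subset ?_
  rintro P ⟨h1, h2, h3⟩
  rw [Finset.mem_coe, Multiset.mem_toFinset,
    UniqueFactorizationMonoid.mem_normalizedFactors_iff' hF]
  exact ⟨h2, h1.normalize_eq_self, h3⟩

private theorem Prm_zero {κ : ℤ} {r : ℕ} {f : Fin r → ℤ[X]} (hm : ∀ i, (f i).Monic)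
    (hpos : ∀ i, 0 < (f i).natDegree)
    (hsq : Squarefree ((∏ i, f i).map (Int.castRingHom ℚ))) :
    {P : ℚ[X] | P.Monic ∧ Irreducible P ∧ ¬ P ∣ X ∧ ¬ P ∣ (Dq κ).map (Int.castRingHom ℚ) ∧
      ((∃ j, P ∣ (f j).map (Int.castRingHom ℚ)) ∨
        (P.natDegree ≤ Bd f ∧ ∃ b : Fin r → ℤ, b ≠ 0 ∧ Rel f b P))}.Finite := by
  refine ((Set.finite_iUnion fun j : Fin r =>
    Prm_factors ((hm j).map (Int.castRingHom ℚ)).ne_zero).union
      (height_fin hm hpos (Prm_cop hsq) (Bd f))).subset ?_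
  rintro P ⟨h1, h2, -, -, h3 | h3⟩
  · obtain ⟨j, hj⟩ := h3
    exact Or.inl (Set.mem_iUnion.2 ⟨j, h1, h2, hj⟩)
  · exact Or.inr ⟨h1, h2, h3.1, h3.2⟩

theorem exists_prm {g : ℕ} {a : Fin (g + 1) → ℤ} (ha : Function.Injective a)
    (d : Fin (g + 1) → ℕ) (κ : ℤ) {r : ℕ}
    {f : Fin r → ℤ[X]} (hm : ∀ i, (f i).Monic) (hpos : ∀ i, 0 < (f i).natDegree)
    (hsq : Squarefree ((∏ i, f i).map (Int.castRingHom ℚ))) :
    ∃ C : ℕ, ∀ (p : ℕ) [Fact p.Prime] (c : ℤ), C < p → (∑ i, d i).Coprime (p * (p - 1)) →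
      (∑ i, d i).Coprime (padicValInt p c) → Prm p a d c κ f := by
  classical
  have hT := Prm_zero (κ := κ) hm hpos hsq
  choose! N hN using fun (P : ℚ[X]) (hP : P ∈ {P : ℚ[X] | P.Monic ∧ Irreducible P ∧ ¬ P ∣ X ∧
      ¬ P ∣ (Dq κ).map (Int.castRingHom ℚ) ∧ ((∃ j, P ∣ (f j).map (Int.castRingHom ℚ)) ∨
        (P.natDegree ≤ Bd f ∧ ∃ b : Fin r → ℤ, b ≠ 0 ∧ Rel f b P))}) =>
    nice_of_large κ hP.1 hP.2.1 hP.2.2.1 hP.2.2.2.1
  obtain ⟨C4, hC4⟩ := Prm_sqf hsq
  refine ⟨∑ P ∈ hT.toFinset, N P + (∑ i, (f i).natDegree + 5) +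
    ∑ i, ∑ j, (a i - a j).natAbs + C4, fun p _ c hp h1 h2 => ?_⟩
  refine ⟨h1, h2, ⟨hm, hpos, hC4 p (by omega)⟩, ?_, by omega, ?_⟩
  · intro i j hij h3
    have h4 : a i - a j ≠ 0 := sub_ne_zero.2 fun h => hij (ha h)
    have h5 : p ≤ (a i - a j).natAbs := by
      have h6 := Int.natAbs_dvd_natAbs.2 h3
      rw [Int.natAbs_natCast] at h6
      exact Nat.le_of_dvd (Int.natAbs_pos.2 h4) h6
    have h7 : (a i - a j).natAbs ≤ ∑ i, ∑ j, (a i - a j).natAbs :=
      (Finset.single_le_sum (f := fun j => (a i - a j).natAbs) (fun _ _ => Nat.zero_le _)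
        (Finset.mem_univ j)).trans
      (Finset.single_le_sum (f := fun i => ∑ j, (a i - a j).natAbs) (fun _ _ => Nat.zero_le _)
        (Finset.mem_univ i))
    omega
  · intro P h3 h4 h5 h6 h7
    have h8 : P ∈ hT.toFinset := hT.mem_toFinset.2 ⟨h3, h4, h5, h6, h7⟩
    have h9 : N P ≤ ∑ P ∈ hT.toFinset, N P :=
      Finset.single_le_sum (f := N) (fun _ _ => Nat.zero_le _) h8
    exact hN P ⟨h3, h4, h5, h6, h7⟩ p (by omega)

end Pool.Agent.ETO
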