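import Mathlib

/-!
# The number `c (κ / 2) ∏ (a i - a j) ^ d j` is not a square

Its value at a prime which divides `c` to an odd power and does not divide the `a i - a j` is odd.
-/

open scoped BigOperators

namespace Pool.Agent.ETO

theorem not_sq {p : ℕ} [Fact p.Prime] {g : ℕ} {a : Fin (g + 1) → ℤ} {d : Fin (g + 1) → ℕ}
    {c κ : ℤ} (hc : c ≠ 0) (hκ : |κ| = 2) (hdis : ∀ i j, i ≠ j → ¬ (p : ℤ) ∣ a i - a j)
    (hodd : Odd (padicValInt p c)) (i : Fin (g + 1)) :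
    ¬ IsSquare ((c : ℚ) * ((κ : ℚ) / 2) *
      ∏ j ∈ Finset.univ.erase i, ((a i : ℚ) - a j) ^ d j) := by
  have hp : Prime (p : ℤ) := Nat.prime_iff_prime_int.1 Fact.out
  obtain ⟨P, hP⟩ : ∃ P : ℤ, P = ∏ j ∈ Finset.univ.erase i, (a i - a j) ^ d j := ⟨_, rfl⟩
  have hPp : ¬ (p : ℤ) ∣ P := by
    rw [hP, hp.dvd_finset_prod_iff]
    rintro ⟨j, hj, h⟩
    exact hdis i j (Finset.mem_erase.1 hj).1.symm (hp.dvd_of_dvd_pow h)
  have hP0 : P ≠ 0 := by
    rintro rfl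
    exact hPp (dvd_zero _)
  have hPQ : ∏ j ∈ Finset.univ.erase i, ((a i : ℚ) - a j) ^ d j = (P : ℚ) := by
    rw [hP]
    push_cast
    rfl
  obtain ⟨ε, hε, hε0⟩ : ∃ ε : ℚ, (κ : ℚ) / 2 = ε ∧ (ε = 1 ∨ ε = -1) := by
    refine ⟨_, rfl, ?_⟩
    rcases (abs_eq (by norm_num : (0 : ℤ) ≤ 2)).1 hκ with h | h
    · left
      rw [h]
      norm_num
    · right
      rw [h]
      norm_num
  rintro ⟨r, hr⟩
  rw [hPQ, hε] at hr
  have hcq : (c : ℚ) ≠ 0 := Int.cast_ne_zero.2 hc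
  have hPq : (P : ℚ) ≠ 0 := Int.cast_ne_zero.2 hP0
  have hεq : ε ≠ 0 := by
    rcases hε0 with h | h <;> rw [h] <;> norm_num
  have hr0 : r ≠ 0 := by
    rintro rfl
    rw [mul_zero] at hr
    exact mul_ne_zero (mul_ne_zero hcq hεq) hPq hr
  have h1 := congrArg (padicValRat p) hr
  have hεv : padicValRat p ε = 0 := by
    rcases hε0 with h | h <;> rw [h]
    · exact padicValRat.one
    · rw [padicValRat.neg]
      exact padicValRat.one
  rw [padicValRat.mul (mul_ne_zero hcq hεq) hPq, padicValRat.mul hcq hεq, hεv,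
    padicValRat.mul hr0 hr0, padicValRat.of_int, padicValRat.of_int,
    padicValInt.eq_zero_of_not_dvd hPp] at h1
  obtain ⟨n, hn⟩ := hodd
  rw [hn] at h1
  push_cast at h1
  omega

end Pool.Agent.ETO
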