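import Pool.Agent.ETI.Stm
import Pool.Agent.ETO.DisB

/-! # Definitions for the statement (see `ETI.Stm` for `wSlices`, `IndependentRegulators`) -/

namespace Pool.Agent.ETO

/-- `p` is a prime number, and `(p - 1) v_p(c)` is prime to `m`. -/
def GoodPrime (m : ℕ) (c : ℤ) (p : ℕ) : Prop :=
  p.Prime ∧ m.Coprime ((p - 1) * padicValInt p c)

end Pool.Agent.ETO
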