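import Pool.Agent.ETO.Main
import Pool.Agent.ETO.Stm

/-!
# The theorem, with the definitions of the statement
-/

open scoped BigOperators Polynomial
open Polynomial

namespace Pool.Agent.ETO

open Pool.Agent.ETU Pool.Agent.CST Pool.Agent.ISG Pool.Agent.CS2 Pool.Agent.ETI

theorem main3 {g s : ℕ} (hg : 0 < g) (a : Fin (g + 1) → ℤ) (ha : Function.Injective a) (κ : ℤ)
    (hκ : |κ| ≤ 2) (d : Fin (g + 1) → ℕ) (hd : ∀ i, d i = 1 ∨ (d i = 2 ∧ |κ| = 2))
    (f : Fin s → ℤ[X]) (hf : ∀ j, (f j).Monic ∧ 0 < (f j).natDegree)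
    (hsq : Squarefree ((X * ∏ j, f j).map (Int.castRingHom ℚ)))
    (hcop : IsCoprime ((∏ j, f j).map (Int.castRingHom ℚ)) (X ^ 2 - C (κ : ℚ) * X + 1)) :
    ∃ C₀ : ℕ, ∀ c : ℤ, (∃ p q : ℕ, p ≠ q ∧ C₀ < p ∧ C₀ < q ∧ GoodPrime (∑ i, d i) c p ∧
        GoodPrime (∑ i, d i) c q ∧ ((∃ i, d i = 2) → Odd (padicValInt p c))) →
      HypGenus g (C (c : ℚ) * ∏ i, (X - C (a i : ℚ)) ^ d i + C (κ : ℚ)) ∧
      ∀ (K : Type) [Field K] [CharZero K] (x w : K), Transcendental ℚ x →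
        IntermediateField.adjoin ℚ {x, w} = ⊤ → w + w⁻¹ = c * ∏ i, (x - a i) ^ d i + κ →
        ∃ (v : Kˣ) (t : Fin g → Kˣ), (v : K) = w ∧
          (∀ i, (t i : K) = (x - a i.succ) / (x - a 0)) ∧
          wSlices w f ⊓ unramifiedK2 K = Submodule.span ℚ (Set.range fun i => sb (t i) v) ∧
          (∀ i, sb (t i) v ∈ integralK2 K) ∧ IndependentRegulators fun i => sb (t i) v := by
  obtain ⟨C₀, h⟩ := main hg a ha κ hκ d hd f hf hsq hcop
  refine ⟨max C₀ (∑ i, d i + 5), fun c hc => ?_⟩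
  obtain ⟨p, q, hpq, hCp, hCq, hp, hq, hodd⟩ := hc
  have : Fact p.Prime := ⟨hp.1⟩
  have hmp : g + 1 ≤ ∑ i, d i := by
    calc g + 1 = ∑ _i : Fin (g + 1), 1 := by simp
      _ ≤ ∑ i, d i := Finset.sum_le_sum fun i _ => by rcases hd i with h | h <;> omega
  have h1 : ∑ i, d i + 5 < p := (le_max_right _ _).trans_lt hCp
  have hν : padicValInt p c ≠ 0 := by
    intro h0
    have h2 := hp.2
    rw [h0, mul_zero, Nat.coprime_zero_right] at h2
    omega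
  refine ⟨?_, fun K _ _ x w hx hK hw => ?_⟩
  · refine hypGenus hg ha hd ?_ hκ hν ?_ (by omega)
    · rintro rfl
      exact hν padicValInt.zero
    · intro hd
      have := Nat.le_of_dvd (by omega) hd
      omega
  · obtain ⟨v, u, t, hv, hu, ht, h3, h4, h5⟩ :=
      h c ⟨p, q, hp.1, hq.1, hpq, (le_max_left _ _).trans_lt hCp,
        (le_max_left _ _).trans_lt hCq, hp.2, hq.2, hodd⟩ K x w hx hK hw
    subst hv
    exact ⟨v, t, rfl, ht, by rw [wSlices_eq f v u hu]; exact h3, h4, h5⟩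

end Pool.Agent.ETO
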