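import Pool.Agent.ETO.Stm

/-! # The condition on `c` -/

open scoped BigOperators

namespace Pool.Agent.ETO

/-- There are two primes `p ≠ q` greater than `C₀` for which `(p - 1) v_p(c)` and `(q - 1) v_q(c)`
are prime to `∑ d i`, and `v_p(c)` is odd if some `d i` is `2`. -/
def TwoPrimes {n : ℕ} (d : Fin n → ℕ) (C₀ : ℕ) (c : ℤ) : Prop :=
  ∃ p q : ℕ, p ≠ q ∧ C₀ < p ∧ C₀ < q ∧ GoodPrime (∑ i, d i) c p ∧
    GoodPrime (∑ i, d i) c q ∧ ((∃ i, d i = 2) → Odd (padicValInt p c))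

end Pool.Agent.ETO
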