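import Pool.Agent.DNS.Fin
import Pool.Agent.ETO.Mn3
import Pool.Agent.ETO.StmB

/-!
# The theorem for almost all `c`
-/

open scoped BigOperators Polynomial
open Polynomial

namespace Pool.Agent.ETO

open Pool.Agent.ETU Pool.Agent.CST Pool.Agent.ISG Pool.Agent.CS2 Pool.Agent.ETI Pool.Agent.DNS

theorem twoPrimes_almostAll {n : ℕ} (d : Fin n → ℕ) (hm : Odd (∑ i, d i)) (C₀ : ℕ) :
    AlmostAll (TwoPrimes d C₀) := by
  refine (density hm C₀).mono fun c h => ?_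
  obtain ⟨p, q, hp, hq, hpq, hCp, hCq, hmp, hmq, hvp, hvq⟩ := h
  refine ⟨p, q, hpq, hCp, hCq, ⟨hp, ?_⟩, ⟨hq, ?_⟩, fun _ => ?_⟩
  · rw [hvp, mul_one]
    exact hmp
  · rw [hvq, mul_one]
    exact hmq
  · rw [hvp]
    exact odd_one

theorem main4 {g s : ℕ} (hg : 0 < g) (a : Fin (g + 1) → ℤ) (ha : Function.Injective a) (κ : ℤ)
    (hκ : |κ| ≤ 2) (d : Fin (g + 1) → ℕ) (hd : ∀ i, d i = 1 ∨ (d i = 2 ∧ |κ| = 2))
    (f : Fin s → ℤ[X]) (hf : ∀ j, (f j).Monic ∧ 0 < (f j).natDegree)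
    (hsq : Squarefree ((X * ∏ j, f j).map (Int.castRingHom ℚ)))
    (hcop : IsCoprime ((∏ j, f j).map (Int.castRingHom ℚ)) (X ^ 2 - C (κ : ℚ) * X + 1)) :
    ∃ C₀ : ℕ, (Odd (∑ i, d i) → AlmostAll (TwoPrimes d C₀)) ∧ ∀ c : ℤ, TwoPrimes d C₀ c →
      HypGenus g (C (c : ℚ) * ∏ i, (X - C (a i : ℚ)) ^ d i + C (κ : ℚ)) ∧
      ∀ (K : Type) [Field K] [CharZero K] (x w : K), Transcendental ℚ x →
        IntermediateField.adjoin ℚ {x, w} = ⊤ → w + w⁻¹ = c * ∏ i, (x - a i) ^ d i + κ →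
        ∃ (v : Kˣ) (t : Fin g → Kˣ), (v : K) = w ∧
          (∀ i, (t i : K) = (x - a i.succ) / (x - a 0)) ∧
          wSlices w f ⊓ unramifiedK2 K = Submodule.span ℚ (Set.range fun i => sb (t i) v) ∧
          (∀ i, sb (t i) v ∈ integralK2 K) ∧ IndependentRegulators fun i => sb (t i) v := by
  obtain ⟨C₀, h⟩ := main3 hg a ha κ hκ d hd f hf hsq hcop
  exact ⟨C₀, fun hm => twoPrimes_almostAll d hm C₀, fun c hc => h c hc⟩

end Pool.Agent.ETO
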