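import Pool.Agent.ETO.CvA

/-!
# The places over `D(w) = 0` are the places over `x = a_l`, one for each `l`

Put `π = x - a_l`. Every `t` is `A(x) + B(x) y` for a suitable `y`: at all places over `a_l` either `y` is a unit
whose residue is not rational (`y = w` for `|κ| < 2`; `y = (w - κ/2) / π` for `κ = ± 2`, `d l = 2`), or `y ^ 2` has the value
of `π` (`y = w - κ/2` for `κ = ± 2`, `d l = 1`). So `t ^ 2` has the value of a power of `π` which does not depend on the place.
-/

open scoped BigOperators Polynomial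
open Polynomial

namespace Pool.Agent.ETO

open Pool.Agent.ETU Pool.Agent.ETI Pool.Agent.CST Pool.Agent.Helper11 Pool.Agent.ISI

section lead

variable {K : Type} [Field K] [CharZero K]

private theorem Pla_rat {O : ValuationSubring K} (hO : IsPl O) {q : ℚ} (hq : q ≠ 0) :
    O.valuation (q : K) = 1 := by
  have h1 : O.valuation (q : K) ≤ 1 := (O.valuation_le_one_iff _).2 (hO.2 q)
  have h2 : O.valuation ((q : K)⁻¹) ≤ 1 := (O.valuation_le_one_iff _).2 (by
    have := hO.2 q⁻¹
    rwa [Rat.cast_inv] at this)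
  rw [map_inv₀] at h2
  have h3 : O.valuation (q : K) ≠ 0 := (O.valuation.ne_zero_iff).2 (Rat.cast_ne_zero.2 hq)
  exact le_antisymm h1 ((inv_le_one₀ (zero_lt_iff.2 h3)).1 h2)

private theorem Pla_int {O : ValuationSubring K} (hO : IsPl O) {n : ℤ} (hn : n ≠ 0) :
    O.valuation (n : K) = 1 := by
  have h := Pla_rat hO (q := (n : ℚ)) (Int.cast_ne_zero.2 hn)
  rwa [Rat.cast_intCast] at h

private theorem Pla_rle {O : ValuationSubring K} (hO : IsPl O) (q : ℚ) :
    O.valuation (q : K) ≤ 1 := (O.valuation_le_one_iff _).2 (hO.2 q)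

/-- `t = q π ^ k (1 + small)` at all places where `π` is small -/
private def PlLd (π t : K) (k : ℤ) (q : ℚ) : Prop :=
  q ≠ 0 ∧ ∀ O : ValuationSubring K, IsPl O → O.valuation π < 1 →
    O.valuation (t * π ^ (-k) - q) < 1

private theorem Pla_one {O : ValuationSubring K} (hO : IsPl O) {s : K} {q : ℚ}
    (hq : q ≠ 0) (h : O.valuation (s - q) < 1) : O.valuation s = 1 := by
  have h1 : s = (s - q) + (q : K) := by ring
  rw [h1, Valuation.map_add_eq_of_lt_right, Pla_rat hO hq]
  rwa [Pla_rat hO hq]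

private theorem Pla_val {π t : K} (hπ : π ≠ 0) {k : ℤ} {q : ℚ} (h : PlLd π t k q)
    {O : ValuationSubring K} (hO : IsPl O) (ho : O.valuation π < 1) :
    O.valuation t = O.valuation π ^ k := by
  have h1 := Pla_one hO h.1 (h.2 O hO ho)
  rw [map_mul, map_zpow₀, zpow_neg] at h1
  have h2 : O.valuation π ^ k ≠ 0 := zpow_ne_zero _ ((O.valuation.ne_zero_iff).2 hπ)
  exact (mul_inv_eq_one₀ h2).1 h1

private theorem Pla_mul {π t t' : K} (hπ : π ≠ 0) {k k' : ℤ} {q q' : ℚ}
    (h : PlLd π t k q) (h' : PlLd π t' k' q') : PlLd π (t * t') (k + k') (q * q') := by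
  refine ⟨mul_ne_zero h.1 h'.1, fun O hO hv => ?_⟩
  have h1 := h.2 O hO hv
  have h2 := h'.2 O hO hv
  have h3 : t * t' * π ^ (-(k + k')) - ((q * q' : ℚ) : K) =
      (t * π ^ (-k) - q) * (t' * π ^ (-k')) + (q : K) * (t' * π ^ (-k') - q') := by
    rw [neg_add, zpow_add₀ hπ]
    push_cast
    ring
  rw [h3]
  refine Valuation.map_add_lt _ ?_ ?_
  · rw [map_mul, Pla_one hO h'.1 h2, mul_one]
    exact h1
  · rw [map_mul, Pla_rat hO h.1, one_mul]
    exact h2

private theorem Pla_inv {π t : K} (hπ : π ≠ 0) {k : ℤ} {q : ℚ} (ht : t ≠ 0)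
    (h : PlLd π t k q) : PlLd π t⁻¹ (-k) q⁻¹ := by
  refine ⟨inv_ne_zero h.1, fun O hO hv => ?_⟩
  have h1 := h.2 O hO hv
  have hq : (q : K) ≠ 0 := Rat.cast_ne_zero.2 h.1
  have hk : π ^ k ≠ 0 := zpow_ne_zero _ hπ
  have h3 : t⁻¹ * π ^ (-(-k)) - ((q⁻¹ : ℚ) : K) =
      -((t * π ^ (-k) - q) * (t * π ^ (-k))⁻¹ * ((q⁻¹ : ℚ) : K)) := by
    rw [neg_neg, zpow_neg]
    push_cast
    field_simp
    ring
  rw [h3, Valuation.map_neg, map_mul, map_mul, map_inv₀, Pla_one hO h.1 h1, inv_one, mul_one,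
    Pla_rat hO (inv_ne_zero h.1), mul_one]
  exact h1

omit [CharZero K] in
private theorem Pla_mem {x : K} {b : ℤ} {O : ValuationSubring K} (h : O.valuation (x - b) < 1) :
    x ∈ O := by
  have h1 : x = (x - b) + b := by ring
  rw [h1]
  exact add_mem ((O.valuation_le_one_iff _).1 h.le) (intCast_mem O b)

private theorem Pla_aeval {x : K} {O : ValuationSubring K} (hO : IsPl O) (hx : x ∈ O)
    (Q : ℚ[X]) : aeval x Q ∈ O := by
  rw [aeval_eq_sum_range]
  refine sum_mem fun i _ => ?_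
  rw [Algebra.smul_def, eq_ratCast]
  exact mul_mem (hO.2 _) (pow_mem hx _)

/-- polynomials in `x` -/
private theorem Pla_poly {x : K} {b : ℤ} (hπ : x - (b : K) ≠ 0) {Q : ℚ[X]} (hQ : Q ≠ 0) :
    ∃ (n : ℤ) (q : ℚ), PlLd (x - b) (aeval x Q) n q := by
  obtain ⟨Q1, h1, h2⟩ := exists_eq_pow_rootMultiplicity_mul_and_not_dvd Q hQ (b : ℚ)
  have h3 : Q1.eval (b : ℚ) ≠ 0 := by
    intro h
    exact h2 (dvd_iff_isRoot.2 h)
  refine ⟨(Q.rootMultiplicity (b : ℚ) : ℕ), Q1.eval (b : ℚ), h3, fun O hO hv => ?_⟩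
  have h4 : aeval x Q = (x - (b : K)) ^ Q.rootMultiplicity (b : ℚ) * aeval x Q1 := by
    conv_lhs => rw [h1]
    rw [map_mul, map_pow, map_sub, aeval_X, aeval_C, eq_ratCast, Rat.cast_intCast]
  have h5 : aeval x Q * (x - (b : K)) ^ (-((Q.rootMultiplicity (b : ℚ) : ℕ) : ℤ)) =
      aeval x Q1 := by
    rw [h4, zpow_neg, zpow_natCast, mul_comm _ (aeval x Q1), mul_assoc,
      mul_inv_cancel₀ (pow_ne_zero _ hπ), mul_one]
  rw [h5]
  obtain ⟨R, hR⟩ := X_sub_C_dvd_sub_C_eval (a := (b : ℚ)) (p := Q1)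
  have h6 : aeval x Q1 - ((Q1.eval (b : ℚ) : ℚ) : K) = (x - (b : K)) * aeval x R := by
    have h7 := congrArg (aeval x) hR
    rw [map_sub, map_mul, map_sub, aeval_X, aeval_C, aeval_C, eq_ratCast, eq_ratCast,
      Rat.cast_intCast] at h7
    exact h7
  rw [h6, map_mul]
  exact (mul_le_of_le_one_right' ((O.valuation_le_one_iff _).2
    (Pla_aeval hO (Pla_mem hv) R))).trans_lt hv

/-- elements of `ℚ(x)` -/
private theorem Pla_L {x : K} {b : ℤ} (hπ : x - (b : K) ≠ 0) {s : K}
    (hs : s ∈ IntermediateField.adjoin ℚ {x}) (hs0 : s ≠ 0) :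
    ∃ (n : ℤ) (q : ℚ), PlLd (x - b) s n q := by
  obtain ⟨r, r', rfl⟩ := (IntermediateField.mem_adjoin_simple_iff ℚ s).1 hs
  have hr : aeval x r ≠ 0 := fun h => hs0 (by rw [h, zero_div])
  have hr' : aeval x r' ≠ 0 := fun h => hs0 (by rw [h, div_zero])
  obtain ⟨n, q, h1⟩ := Pla_poly (b := b) hπ (Q := r) fun h => hr (by rw [h, map_zero])
  obtain ⟨n', q', h2⟩ := Pla_poly (b := b) hπ (Q := r') fun h => hr' (by rw [h, map_zero])
  refine ⟨n + -n', q * q'⁻¹, ?_⟩
  rw [div_eq_mul_inv]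
  exact Pla_mul hπ h1 (Pla_inv hπ hr' h2)

omit [CharZero K] in
private theorem Pla_small {π : K} {O : ValuationSubring K} (hπ : π ≠ 0)
    (h : O.valuation π < 1) {s : K} {m n : ℤ} (hs : O.valuation s = O.valuation π ^ m)
    (hmn : n < m) : O.valuation (s * π ^ (-n)) < 1 := by
  rw [map_mul, hs, map_zpow₀, ← zpow_add₀ ((O.valuation.ne_zero_iff).2 hπ)]
  exact zpow_lt_one₀ (zero_lt_iff.2 ((O.valuation.ne_zero_iff).2 hπ)) h (by omega)

/-- the case of a unit `y` whose residue is not rational -/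
private theorem Pla_res {π y A B : K} (hπ : π ≠ 0)
    (hy : ∀ O : ValuationSubring K, IsPl O → O.valuation π < 1 →
      O.valuation y = 1 ∧ ∀ q : ℚ, ¬ O.valuation (y - q) < 1)
    (hA : A ≠ 0 → ∃ (n : ℤ) (q : ℚ), PlLd π A n q) (hB : B ≠ 0 → ∃ (n : ℤ) (q : ℚ), PlLd π B n q)
    (h0 : A + B * y ≠ 0) :
    ∃ k : ℤ, ∀ O : ValuationSubring K, IsPl O → O.valuation π < 1 →
      O.valuation (A + B * y) = O.valuation π ^ k := by
  have hval : ∀ (O : ValuationSubring K) (n : ℤ), O.valuation ((A + B * y) * π ^ (-n)) = 1 →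
      O.valuation (A + B * y) = O.valuation π ^ n := by
    intro O n h
    rw [map_mul, map_zpow₀, zpow_neg] at h
    exact (mul_inv_eq_one₀ (zpow_ne_zero _ ((O.valuation.ne_zero_iff).2 hπ))).1 h
  by_cases hB0 : B = 0
  · rw [hB0, zero_mul, add_zero] at h0 ⊢
    obtain ⟨n, q, h1⟩ := hA h0
    exact ⟨n, fun O hO ho => Pla_val hπ h1 hO ho⟩
  obtain ⟨n, q, h2⟩ := hB hB0
  by_cases hA0 : A = 0
  · rw [hA0, zero_add]
    refine ⟨n, fun O hO ho => ?_⟩
    rw [map_mul, (hy O hO ho).1, mul_one]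
    exact Pla_val hπ h2 hO ho
  obtain ⟨m, r, h1⟩ := hA hA0
  have hd : ∀ k : ℤ, (A + B * y) * π ^ (-k) = A * π ^ (-k) + (B * π ^ (-k)) * y := fun k => by ring
  rcases lt_trichotomy m n with h | h | h
  · refine ⟨m, fun O hO ho => hval O m ?_⟩
    rw [hd]
    have h3 : O.valuation ((B * π ^ (-m)) * y) < 1 := by
      rw [map_mul, (hy O hO ho).1, mul_one]
      exact Pla_small hπ ho (Pla_val hπ h2 hO ho) h
    have h4 := Pla_one hO h1.1 (h1.2 O hO ho)
    rw [Valuation.map_add_eq_of_lt_left _ (by rw [h4]; exact h3), h4]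
  · subst h
    refine ⟨m, fun O hO ho => hval O m ?_⟩
    rw [hd]
    obtain ⟨hy1, hy2⟩ := hy O hO ho
    have h3 := h1.2 O hO ho
    have h4 := h2.2 O hO ho
    have e : A * π ^ (-m) + (B * π ^ (-m)) * y =
        ((A * π ^ (-m) - r) + (B * π ^ (-m) - q) * y) + (q : K) * (y - ((-r / q : ℚ) : K)) := by
      have hq : (q : K) ≠ 0 := Rat.cast_ne_zero.2 h2.1
      push_cast
      field_simp
      ring
    have h5 : O.valuation ((A * π ^ (-m) - r) + (B * π ^ (-m) - q) * y) < 1 := by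
      refine Valuation.map_add_lt _ h3 ?_
      rw [map_mul, hy1, mul_one]
      exact h4
    have h6 : O.valuation ((q : K) * (y - ((-r / q : ℚ) : K))) = 1 := by
      rw [map_mul, Pla_rat hO h2.1, one_mul]
      refine le_antisymm ?_ (not_lt.1 (hy2 _))
      exact (Valuation.map_sub _ _ _).trans (max_le hy1.le (Pla_rle hO _))
    rw [e, Valuation.map_add_eq_of_lt_right _ (by rw [h6]; exact h5), h6]
  · refine ⟨n, fun O hO ho => hval O n ?_⟩
    rw [hd]
    have h3 := Pla_small hπ ho (Pla_val hπ h1 hO ho) h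
    have h4 : O.valuation ((B * π ^ (-n)) * y) = 1 := by
      rw [map_mul, (hy O hO ho).1, mul_one]
      exact Pla_one hO h2.1 (h2.2 O hO ho)
    rw [Valuation.map_add_eq_of_lt_right _ (by rw [h4]; exact h3), h4]

/-- the case of an element `y` whose square has the value of `π` -/
private theorem Pla_ram {π y A B : K} (hπ : π ≠ 0)
    (hy : ∀ O : ValuationSubring K, IsPl O → O.valuation π < 1 →
      O.valuation y ^ 2 = O.valuation π)
    (hA : A ≠ 0 → ∃ (n : ℤ) (q : ℚ), PlLd π A n q) (hB : B ≠ 0 → ∃ (n : ℤ) (q : ℚ), PlLd π B n q)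
    (h0 : A + B * y ≠ 0) :
    ∃ k : ℤ, ∀ O : ValuationSubring K, IsPl O → O.valuation π < 1 →
      O.valuation (A + B * y) ^ 2 = O.valuation π ^ k := by
  have hyB : ∀ n q, PlLd π B n q → ∀ O : ValuationSubring K, IsPl O → O.valuation π < 1 →
      O.valuation (B * y) ^ 2 = O.valuation π ^ (2 * n + 1) := by
    intro n q h O hO ho
    have hne := (O.valuation.ne_zero_iff).2 hπ
    rw [map_mul, mul_pow, hy O hO ho, Pla_val hπ h hO ho, zpow_add_one₀ hne, ← zpow_natCast,
      ← zpow_mul, mul_comm n]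
    rfl
  have hAv : ∀ n q, PlLd π A n q → ∀ O : ValuationSubring K, IsPl O → O.valuation π < 1 →
      O.valuation A ^ 2 = O.valuation π ^ (2 * n) := by
    intro n q h O hO ho
    rw [Pla_val hπ h hO ho, ← zpow_natCast, ← zpow_mul, mul_comm n]
    rfl
  by_cases hB0 : B = 0
  · rw [hB0, zero_mul, add_zero] at h0 ⊢
    obtain ⟨n, q, h1⟩ := hA h0
    exact ⟨2 * n, hAv n q h1⟩
  obtain ⟨n, q, h2⟩ := hB hB0
  by_cases hA0 : A = 0
  · rw [hA0, zero_add]
    exact ⟨2 * n + 1, hyB n q h2⟩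
  obtain ⟨m, r, h1⟩ := hA hA0
  rcases lt_or_gt_of_ne (show 2 * m ≠ 2 * n + 1 by omega) with h | h
  · refine ⟨2 * m, fun O hO ho => ?_⟩
    have hlt : O.valuation (B * y) < O.valuation A := by
      rw [← pow_lt_pow_iff_left₀ zero_le zero_le two_ne_zero, hyB n q h2 O hO ho,
        hAv m r h1 O hO ho]
      exact zpow_lt_zpow_right_of_lt_one₀ (zero_lt_iff.2 ((O.valuation.ne_zero_iff).2 hπ)) ho h
    rw [Valuation.map_add_eq_of_lt_left _ hlt]
    exact hAv m r h1 O hO ho
  · refine ⟨2 * n + 1, fun O hO ho => ?_⟩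
    have hlt : O.valuation A < O.valuation (B * y) := by
      rw [← pow_lt_pow_iff_left₀ zero_le zero_le two_ne_zero, hyB n q h2 O hO ho,
        hAv m r h1 O hO ho]
      exact zpow_lt_zpow_right_of_lt_one₀ (zero_lt_iff.2 ((O.valuation.ne_zero_iff).2 hπ)) ho h
    rw [Valuation.map_add_eq_of_lt_right _ hlt]
    exact hyB n q h2 O hO ho

end lead

private theorem Pla_top {K : Type} [Field K] [CharZero K] {x v : K}
    (ht : IntermediateField.adjoin ℚ {x, v} = ⊤) :
    IntermediateField.adjoin (IntermediateField.adjoin ℚ {x}) {v} = ⊤ := by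
  have h1 := IntermediateField.adjoin_adjoin_left ℚ {x} {v}
  have h2 : ({x} ∪ {v} : Set K) = {x, v} := rfl
  rw [h2, ht] at h1
  exact IntermediateField.restrictScalars_injective ℚ (h1.trans
    (IntermediateField.restrictScalars_top).symm)

/-- every element is `r0 + r1 v` with `r0`, `r1` in `ℚ(x)` -/
private theorem Pla_red {g : ℕ} {a : Fin (g + 1) → ℤ} {d : Fin (g + 1) → ℕ} {c κ : ℤ}
    {K : Type} [Field K] [CharZero K] {x : K} {v : Kˣ} (H : Crv a d c κ x v) (t : K) :
    ∃ r0 r1 : K, r0 ∈ IntermediateField.adjoin ℚ {x} ∧ r1 ∈ IntermediateField.adjoin ℚ {x} ∧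
      t = r0 + r1 * v := by
  set L := IntermediateField.adjoin ℚ {x} with hL
  have hx : x ∈ L := IntermediateField.mem_adjoin_simple_self ℚ x
  have hb : (v : K) + (v : K)⁻¹ ∈ L := by
    rw [H.eq]
    exact add_mem (mul_mem (intCast_mem _ c)
      (prod_mem fun i _ => pow_mem (sub_mem hx (intCast_mem _ _)) _)) (intCast_mem _ κ)
  let Q : L[X] := X ^ 2 - C (⟨_, hb⟩ : L) * X + C 1
  have hQ : Q.Monic := by
    show (X ^ 2 - C (⟨_, hb⟩ : L) * X + C 1 : L[X]).Monic
    monicity!
  have hQd : Q.natDegree = 2 := by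
    show (X ^ 2 - C (⟨_, hb⟩ : L) * X + C 1 : L[X]).natDegree = 2
    compute_degree!
  have hQv : aeval (v : K) Q = 0 := by
    show aeval (v : K) (X ^ 2 - C (⟨_, hb⟩ : L) * X + C 1 : L[X]) = 0
    rw [map_add, map_sub, map_mul, map_pow, aeval_X, aeval_C, aeval_C, map_one]
    change (v : K) ^ 2 - ((v : K) + (v : K)⁻¹) * v + 1 = 0
    have hv := v.ne_zero
    field_simp
    ring
  have hint : IsIntegral L (v : K) := ⟨Q, hQ, hQv⟩
  have ht : t ∈ Algebra.adjoin L {(v : K)} := by
    rw [← IntermediateField.adjoin_simple_toSubalgebra_of_isAlgebraic hint.isAlgebraic,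
      Pla_top H.top]
    exact IntermediateField.mem_top
  rw [Algebra.adjoin_singleton_eq_range_aeval] at ht
  obtain ⟨R, hR⟩ := ht
  have hR' : aeval (v : K) (R %ₘ Q) = t := by
    rw [aeval_modByMonic_eq_self_of_root hQv]
    exact hR
  refine ⟨((R %ₘ Q).coeff 0 : K), ((R %ₘ Q).coeff 1 : K), SetLike.coe_mem _,
    SetLike.coe_mem _, ?_⟩
  rw [← hR', aeval_eq_sum_range' (n := 2)]
  · rw [Finset.sum_range_succ, Finset.sum_range_one, pow_zero, pow_one]
    rw [Algebra.smul_def, Algebra.smul_def, mul_one]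
    rfl
  · rw [← hQd]
    exact natDegree_modByMonic_lt _ hQ (fun h => by
      rw [h, natDegree_one] at hQd
      omega)

private theorem Pla_other {K : Type} [Field K] [CharZero K] {O : ValuationSubring K}
    (hO : IsPl O) {x : K} {m n : ℤ} (hmn : m ≠ n) (h : O.valuation (x - m) < 1) :
    O.valuation (x - n) = 1 := by
  have h1 : O.valuation ((m - n : ℤ) : K) = 1 := Pla_int hO (sub_ne_zero.2 hmn)
  have h2 : x - n = (x - m) + ((m - n : ℤ) : K) := by
    push_cast
    ring
  rw [h2, Valuation.map_add_eq_of_lt_right _ (by rw [h1]; exact h), h1]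

/-- `w` is a unit over `a l` -/
private theorem Pla_v {g : ℕ} {a : Fin (g + 1) → ℤ} {d : Fin (g + 1) → ℕ} {c κ : ℤ}
    {K : Type} [Field K] [CharZero K] {x : K} {v : Kˣ} (H : Crv a d c κ x v)
    {O : ValuationSubring K} (hx : x ∈ O) : O.valuation (v : K) = 1 := by
  have hb : (v : K) + (v : K)⁻¹ ∈ O := by
    rw [H.eq]
    exact add_mem (mul_mem (intCast_mem _ c)
      (prod_mem fun i _ => pow_mem (sub_mem hx (intCast_mem _ _)) _)) (intCast_mem _ κ)
  have hb' := (O.valuation_le_one_iff _).2 hb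
  have h0 : O.valuation (v : K) ≠ 0 := (O.valuation.ne_zero_iff).2 v.ne_zero
  rcases lt_trichotomy (O.valuation (v : K)) 1 with h | h | h
  · have h1 : 1 < O.valuation (v : K)⁻¹ := by
      rw [map_inv₀]
      exact (one_lt_inv₀ (zero_lt_iff.2 h0)).2 h
    rw [Valuation.map_add_eq_of_lt_right _ (h.trans h1)] at hb'
    exact absurd h1 (not_lt.2 hb')
  · exact h
  · have h1 : O.valuation (v : K)⁻¹ < 1 := by
      rw [map_inv₀]
      exact (inv_lt_one₀ (zero_lt_iff.2 h0)).2 h
    rw [Valuation.map_add_eq_of_lt_left _ (h1.trans h)] at hb'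
    exact absurd h (not_lt.2 hb')

theorem Crv.pla_over {g : ℕ} {a : Fin (g + 1) → ℤ} {d : Fin (g + 1) → ℕ} {c κ : ℤ}
    {K : Type} [Field K] [CharZero K] {x : K} {v : Kˣ} (H : Crv a d c κ x v)
    {O : ValuationSubring K} (hO : IsPl O)
    (h1 : O.valuation (v : K) = 1) (h2 : O.valuation (aeval (v : K) (Dq κ)) < 1) :
    ∃ l, O.valuation (x - a l) < 1 := by
  by_contra hcon
  push Not at hcon
  rw [← H.prod, map_mul, map_mul, Pla_int hO H.c0, h1, one_mul, one_mul, map_prod] at h2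
  refine absurd h2 (not_lt.2 (Finset.one_le_prod' fun i _ => ?_))
  rw [map_pow]
  exact one_le_pow₀ (hcon i)

private theorem Pla_pi {K : Type} [Field K] [CharZero K] {x : K} (hx : Transcendental ℚ x)
    (b : ℤ) : x - (b : K) ≠ 0 := by
  intro h
  apply hx
  rw [sub_eq_zero.1 h]
  have h2 := isAlgebraic_algebraMap (R := ℚ) (A := K) (b : ℚ)
  rwa [eq_ratCast, Rat.cast_intCast] at h2

/-- the product without the factor `l` -/
private theorem Pla_prod {g : ℕ} {a : Fin (g + 1) → ℤ} {d : Fin (g + 1) → ℕ}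
    (ha : Function.Injective a)
    {K : Type} [Field K] [CharZero K] {x : K} (l : Fin (g + 1))
    {O : ValuationSubring K} (hO : IsPl O) (ho : O.valuation (x - a l) < 1) :
    O.valuation (∏ j ∈ Finset.univ.erase l, (x - a j) ^ d j) = 1 ∧
      O.valuation (∏ j ∈ Finset.univ.erase l, (x - a j) ^ d j -
        ((∏ j ∈ Finset.univ.erase l, ((a l : ℚ) - a j) ^ d j : ℚ) : K)) < 1 := by
  constructor
  · rw [map_prod]
    refine Finset.prod_eq_one fun j hj => ?_
    rw [map_pow, Pla_other hO (fun h => (Finset.mem_erase.1 hj).1 (ha h).symm) ho, one_pow]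
  · obtain ⟨Q, hQ⟩ : ∃ Q : ℚ[X], Q = ∏ j ∈ Finset.univ.erase l, (X - C (a j : ℚ)) ^ d j :=
      ⟨_, rfl⟩
    have h1 : aeval x Q = ∏ j ∈ Finset.univ.erase l, (x - a j) ^ d j := by
      rw [hQ, map_prod]
      refine Finset.prod_congr rfl fun j _ => ?_
      rw [map_pow, map_sub, aeval_X, aeval_C, eq_ratCast, Rat.cast_intCast]
    have h2 : Q.eval (a l : ℚ) = ∏ j ∈ Finset.univ.erase l, ((a l : ℚ) - a j) ^ d j := by
      rw [hQ, eval_prod]
      refine Finset.prod_congr rfl fun j _ => ?_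
      rw [eval_pow, eval_sub, eval_X, eval_C]
    rw [← h1, ← h2]
    obtain ⟨R, hR⟩ := X_sub_C_dvd_sub_C_eval (a := (a l : ℚ)) (p := Q)
    have h7 := congrArg (aeval x) hR
    rw [map_sub, map_mul, map_sub, aeval_X, aeval_C, aeval_C, eq_ratCast, eq_ratCast,
      Rat.cast_intCast] at h7
    rw [h7, map_mul]
    exact (mul_le_of_le_one_right' ((O.valuation_le_one_iff _).2
      (Pla_aeval hO (Pla_mem ho) R))).trans_lt ho

/-- a rational number with value less than one is zero -/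
private theorem Pla_zero {K : Type} [Field K] [CharZero K] {O : ValuationSubring K}
    (hO : IsPl O) {q : ℚ} (h : O.valuation (q : K) < 1) : q = 0 := by
  by_contra hq
  rw [Pla_rat hO hq] at h
  exact lt_irrefl _ h

theorem Crv.pla_rep {g : ℕ} {a : Fin (g + 1) → ℤ} {d : Fin (g + 1) → ℕ} {c κ : ℤ}
    {K : Type} [Field K] [CharZero K] {x : K} {v : Kˣ} (H : Crv a d c κ x v)
    (l : Fin (g + 1)) {t : K} (ht : t ≠ 0) :
    ∃ k : ℤ, ∀ O : ValuationSubring K, IsPl O → O.valuation (x - a l) < 1 →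
      O.valuation t ^ 2 = O.valuation (x - a l) ^ k := by
  classical
  have hπ : x - (a l : K) ≠ 0 := Pla_pi H.tr _
  have hxL : x ∈ IntermediateField.adjoin ℚ {x} := IntermediateField.mem_adjoin_simple_self ℚ x
  obtain ⟨r0, r1, h0, h1, rfl⟩ := Pla_red H t
  have hsq : ∀ {s : K} {O : ValuationSubring K} {k : ℤ},
      O.valuation s = O.valuation (x - a l) ^ k →
      O.valuation s ^ 2 = O.valuation (x - a l) ^ (2 * k) := by
    intro s O k h
    rw [h, ← zpow_natCast, ← zpow_mul, mul_comm k]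
    rfl
  have hD : ∀ O : ValuationSubring K, IsPl O → O.valuation (x - a l) < 1 →
      aeval (v : K) (Dq κ) = (c : K) * v * ((x - a l) ^ d l *
        ∏ j ∈ Finset.univ.erase l, (x - a j) ^ d j) := by
    intro O hO ho
    rw [← H.prod, ← Finset.mul_prod_erase Finset.univ _ (Finset.mem_univ l)]
  have hDv : aeval (v : K) (Dq κ) = (v : K) ^ 2 - κ * v + 1 := by
    unfold Dq
    simp
  rcases H.d12 l with hd | ⟨hd, hκ⟩
  · by_cases hκ : |κ| = 2
    · -- ramified case
      obtain ⟨ε, hε, hε2⟩ : ∃ ε : ℤ, κ = 2 * ε ∧ ε ^ 2 = 1 := by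
        rcases (abs_eq (by norm_num : (0 : ℤ) ≤ 2)).1 hκ with h | h
        · exact ⟨1, by rw [h]; rfl, by norm_num⟩
        · exact ⟨-1, by rw [h]; rfl, by norm_num⟩
      have hεK : (ε : K) ^ 2 = 1 := by exact_mod_cast hε2
      have hm : ∀ O : ValuationSubring K, IsPl O → O.valuation (x - a l) < 1 →
          O.valuation ((v : K) - ε) ^ 2 = O.valuation (x - a l) := by
        intro O hO ho
        have e : ((v : K) - ε) ^ 2 = aeval (v : K) (Dq κ) := by
          rw [hDv, hε]
          push_cast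
          linear_combination hεK
        rw [← map_pow, e, hD O hO ho, hd, pow_one, map_mul, map_mul, map_mul, Pla_int hO H.c0,
          Pla_v H (Pla_mem ho), (Pla_prod H.inj l hO ho).1, one_mul, one_mul, mul_one]
      have e : r0 + r1 * (v : K) = (r0 + ε * r1) + r1 * ((v : K) - ε) := by ring
      rw [e] at ht ⊢
      exact Pla_ram hπ hm
        (fun h => Pla_L hπ (add_mem h0 (mul_mem (intCast_mem _ _) h1)) h)
        (fun h => Pla_L hπ h1 h) ht
    · -- `D` is irreducible
      have hκ1 : |κ| ≤ 1 := by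
        have := H.κ2
        omega
      have hm : ∀ O : ValuationSubring K, IsPl O → O.valuation (x - a l) < 1 →
          O.valuation (v : K) = 1 ∧ ∀ q : ℚ, ¬ O.valuation ((v : K) - q) < 1 := by
        intro O hO ho
        have hv1 := Pla_v H (Pla_mem ho)
        refine ⟨hv1, fun q hq => ?_⟩
        have h2 : O.valuation (aeval (v : K) (Dq κ)) < 1 := by
          rw [hD O hO ho, hd, pow_one, map_mul, map_mul, map_mul, Pla_int hO H.c0, hv1,
            (Pla_prod H.inj l hO ho).1, one_mul, one_mul, mul_one]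
          exact ho
        have h3 : ((q ^ 2 - κ * q + 1 : ℚ) : K) = aeval (v : K) (Dq κ) -
            ((v : K) - q) * ((v : K) + q - κ) := by
          rw [hDv]
          push_cast
          ring
        have h4 : O.valuation ((q ^ 2 - κ * q + 1 : ℚ) : K) < 1 := by
          rw [h3]
          refine Valuation.map_sub_lt _ h2 ?_
          rw [map_mul]
          refine (mul_le_of_le_one_right' ?_).trans_lt hq
          rw [O.valuation_le_one_iff]
          exact sub_mem (add_mem ((O.valuation_le_one_iff _).1 hv1.le) (hO.2 q))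
            (intCast_mem O κ)
        have h5 := Pla_zero hO h4
        have h6 : (κ : ℚ) ^ 2 ≤ 1 := by
          have h7 : κ ^ 2 ≤ 1 := by
            rw [← sq_abs]
            have := abs_nonneg κ
            nlinarith
          exact_mod_cast h7
        nlinarith [sq_nonneg (2 * q - κ)]
      obtain ⟨k, hk⟩ := Pla_res hπ hm (fun h => Pla_L hπ h0 h) (fun h => Pla_L hπ h1 h) ht
      exact ⟨2 * k, fun O hO ho => hsq (hk O hO ho)⟩
  · -- inert case
    obtain ⟨ε, hε, hε2⟩ : ∃ ε : ℤ, κ = 2 * ε ∧ ε ^ 2 = 1 := by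
      rcases (abs_eq (by norm_num : (0 : ℤ) ≤ 2)).1 hκ with h | h
      · exact ⟨1, by rw [h]; rfl, by norm_num⟩
      · exact ⟨-1, by rw [h]; rfl, by norm_num⟩
    have hεK : (ε : K) ^ 2 = 1 := by exact_mod_cast hε2
    obtain ⟨y, hy⟩ : ∃ y : K, y = ((v : K) - ε) / (x - a l) := ⟨_, rfl⟩
    have hyv : (v : K) - ε = (x - a l) * y := by
      rw [hy, mul_div_cancel₀ _ hπ]
    have hm : ∀ O : ValuationSubring K, IsPl O → O.valuation (x - a l) < 1 →
        O.valuation y = 1 ∧ ∀ q : ℚ, ¬ O.valuation (y - q) < 1 := by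
      intro O hO ho
      have hv1 := Pla_v H (Pla_mem ho)
      obtain ⟨hp1, hp2⟩ := Pla_prod (d := d) H.inj l hO ho
      have e : ((v : K) - ε) ^ 2 = aeval (v : K) (Dq κ) := by
        rw [hDv, hε]
        push_cast
        linear_combination hεK
      have hy2 : y ^ 2 = (c : K) * v * ∏ j ∈ Finset.univ.erase l, (x - a j) ^ d j := by
        rw [hD O hO ho, hd, hyv, mul_pow] at e
        have h2 : (x - (a l : K)) ^ 2 ≠ 0 := pow_ne_zero _ hπ
        refine mul_left_cancel₀ h2 ?_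
        rw [e]
        ring
      have hy1 : O.valuation y = 1 := by
        have h2 := congrArg O.valuation hy2
        rw [map_pow, map_mul, map_mul, Pla_int hO H.c0, hv1, hp1, one_mul, one_mul] at h2
        exact (pow_eq_one_iff_of_nonneg zero_le two_ne_zero).1 h2
      refine ⟨hy1, fun q hq => ?_⟩
      apply H.sq l hd
      refine ⟨q, ?_⟩
      have hve : O.valuation ((v : K) - ε) < 1 := by
        rw [hyv, map_mul, hy1, mul_one]
        exact ho
      obtain ⟨P0, hP0⟩ : ∃ P0 : ℚ, P0 = ∏ j ∈ Finset.univ.erase l, ((a l : ℚ) - a j) ^ d j :=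
        ⟨_, rfl⟩
      rw [← hP0] at hp2 ⊢
      have hκq : (κ : ℚ) / 2 = ε := by
        rw [hε]
        push_cast
        ring
      rw [hκq]
      have h3 : (((c : ℚ) * ε * P0 - q * q : ℚ) : K) =
          (y - q) * (y + q) - ((c : K) * (((v : K) - ε) *
            ∏ j ∈ Finset.univ.erase l, (x - a j) ^ d j) + (c : K) * (ε *
            (∏ j ∈ Finset.univ.erase l, (x - a j) ^ d j - (P0 : K)))) := by
        have h4 : (y - q) * (y + q) = y ^ 2 - (q : K) * q := by ring
        rw [h4, hy2]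
        push_cast
        ring
      have hi : ∀ n : ℤ, O.valuation (n : K) ≤ 1 := fun n =>
        (O.valuation_le_one_iff _).2 (intCast_mem O n)
      have h4 : O.valuation (((c : ℚ) * ε * P0 - q * q : ℚ) : K) < 1 := by
        rw [h3]
        refine Valuation.map_sub_lt _ ?_ (Valuation.map_add_lt _ ?_ ?_)
        · rw [map_mul]
          refine (mul_le_of_le_one_right' ?_).trans_lt hq
          rw [O.valuation_le_one_iff]
          exact add_mem ((O.valuation_le_one_iff _).1 hy1.le) (hO.2 q)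
        · rw [map_mul, map_mul, hp1, mul_one]
          exact (mul_le_of_le_one_left' (hi c)).trans_lt hve
        · rw [map_mul, map_mul]
          exact (mul_le_of_le_one_left' (hi c)).trans_lt
            ((mul_le_of_le_one_left' (hi ε)).trans_lt hp2)
      have h5 := Pla_zero hO h4
      linarith
    have e : r0 + r1 * (v : K) = (r0 + ε * r1) + (r1 * (x - a l)) * y := by
      rw [mul_assoc, ← hyv]
      ring
    rw [e] at ht ⊢
    obtain ⟨k, hk⟩ := Pla_res hπ hm
      (fun h => Pla_L hπ (add_mem h0 (mul_mem (intCast_mem _ _) h1)) h)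
      (fun h => Pla_L hπ (mul_mem h1 (sub_mem hxL (intCast_mem _ _))) h) ht
    exact ⟨2 * k, fun O hO ho => hsq (hk O hO ho)⟩

theorem Crv.pla_unique {g : ℕ} {a : Fin (g + 1) → ℤ} {d : Fin (g + 1) → ℕ} {c κ : ℤ}
    {K : Type} [Field K] [CharZero K] {x : K} {v : Kˣ} (H : Crv a d c κ x v)
    {l : Fin (g + 1)} {O O' : ValuationSubring K}
    (hO : IsPl O) (hO' : IsPl O') (h : O.valuation (x - a l) < 1)
    (h' : O'.valuation (x - a l) < 1) : O = O' := by
  have hπ : x - (a l : K) ≠ 0 := Pla_pi H.tr _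
  have key : ∀ O : ValuationSubring K, IsPl O → O.valuation (x - a l) < 1 → ∀ (t : K) (k : ℤ),
      O.valuation t ^ 2 = O.valuation (x - a l) ^ k → (t ∈ O ↔ 0 ≤ k) := by
    intro O hO h t k hk
    have hp : 0 < O.valuation (x - a l) := zero_lt_iff.2 ((O.valuation.ne_zero_iff).2 hπ)
    rw [← O.valuation_le_one_iff]
    constructor
    · intro h3
      by_contra h4
      have h5 : 1 < O.valuation (x - a l) ^ k := by
        have h6 := zpow_lt_one₀ hp h (n := -k) (by omega)
        rw [zpow_neg] at h6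
        exact (inv_lt_one₀ (zpow_pos hp k)).1 h6
      rw [← hk] at h5
      exact absurd h5 (not_lt.2 (pow_le_one' h3 2))
    · intro h3
      by_contra h4
      have h5 : 1 < O.valuation t ^ 2 := one_lt_pow₀ (not_le.1 h4) two_ne_zero
      rw [hk] at h5
      exact absurd h5 (not_lt.2 (zpow_le_one₀ hp h.le h3))
  ext t
  by_cases ht : t = 0
  · rw [ht]
    exact ⟨fun _ => O'.zero_mem, fun _ => O.zero_mem⟩
  · obtain ⟨k, hk⟩ := H.pla_rep l ht
    rw [key O hO h t k (hk O hO h), key O' hO' h' t k (hk O' hO' h')]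

/-- `x - a l` has its zeros over `a l` only, its poles where `w = 0, ∞` -/
theorem Crv.pla_unit {g : ℕ} {a : Fin (g + 1) → ℤ} {d : Fin (g + 1) → ℕ} {c κ : ℤ}
    {K : Type} [Field K] [CharZero K] {x : K} {v : Kˣ} (H : Crv a d c κ x v)
    (l : Fin (g + 1)) {O : ValuationSubring K}
    (hO : IsPl O) (h1 : O.valuation (v : K) = 1) (h2 : ¬ O.valuation (x - a l) < 1) :
    O.valuation (x - a l) = 1 := by
  refine le_antisymm ?_ (not_lt.1 h2)
  by_contra hx
  rw [not_le] at hx
  have hi : ∀ n : ℤ, O.valuation (n : K) ≤ 1 := fun n =>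
    (O.valuation_le_one_iff _).2 (intCast_mem O n)
  have h3 : ∀ j, O.valuation (x - a j) = O.valuation (x - a l) := by
    intro j
    have e : x - a j = (x - a l) + ((a l - a j : ℤ) : K) := by
      push_cast
      ring
    rw [e, Valuation.map_add_eq_of_lt_left _ ((hi _).trans_lt hx)]
  have h4 : 1 < O.valuation (aeval (v : K) (Dq κ)) := by
    rw [← H.prod, map_mul, map_mul, Pla_int hO H.c0, h1, one_mul, one_mul, map_prod,
      Finset.prod_congr rfl fun j _ => by rw [map_pow, h3 j], Finset.prod_pow_eq_pow_sum]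
    exact one_lt_pow₀ hx H.m0.ne'
  refine absurd h4 (not_lt.2 ?_)
  rw [O.valuation_le_one_iff]
  have h5 := (O.valuation_le_one_iff _).1 h1.le
  have hDv : aeval (v : K) (Dq κ) = (v : K) ^ 2 - κ * v + 1 := by
    unfold Dq
    simp
  rw [hDv]
  exact add_mem (sub_mem (pow_mem h5 2) (mul_mem (intCast_mem O κ) h5)) (one_mem O)

end Pool.Agent.ETO
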