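import Pool.Agent.ETO.Inf
import Pool.Agent.ETO.Pla

/-!
# `S`-units

A function `h` with zeros and poles only over `w = 0`, `w = ∞` and `D(w) = 0` has a power of the form
`p(w) / q(w) * ∏ (x - a_l) ^ e_l` with `∑ e_l = 0`: a power of `h` divided by suitable powers of the `x - a_l` and of `w` has
zeros and poles at most at the unique place over `w = ∞`, so it is a rational constant.
-/

open scoped BigOperators Polynomial
open Polynomial

namespace Pool.Agent.ETO

open Pool.Agent.ETU Pool.Agent.ETI Pool.Agent.CST Pool.Agent.Helper11 Pool.Agent.ISI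

/-- `u` is a quotient of polynomials in `v` -/
private def sunR {K : Type} [Field K] [CharZero K] (v : K) (u : Kˣ) : Prop :=
  ∃ p q : ℚ[X], p ≠ 0 ∧ q ≠ 0 ∧ u = pq v p / pq v q

private theorem sunR_mul {K : Type} [Field K] [CharZero K] {v : K} (hv : Transcendental ℚ v)
    {u w : Kˣ} (h : sunR v u) (h' : sunR v w) : sunR v (u * w) := by
  obtain ⟨p, q, hp, hq, rfl⟩ := h
  obtain ⟨p', q', hp', hq', rfl⟩ := h'
  refine ⟨p * p', q * q', mul_ne_zero hp hp', mul_ne_zero hq hq', ?_⟩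
  rw [pq_mul hv hp hp', pq_mul hv hq hq', mul_div_mul_comm]

private theorem sunR_inv {K : Type} [Field K] [CharZero K] {v : K} {u : Kˣ} (h : sunR v u) :
    sunR v u⁻¹ := by
  obtain ⟨p, q, hp, hq, rfl⟩ := h
  exact ⟨q, p, hq, hp, by rw [inv_div]⟩

private theorem sunR_of {K : Type} [Field K] [CharZero K] {v : K} (hv : Transcendental ℚ v)
    {p : ℚ[X]} (hp : p ≠ 0) : sunR v (pq v p) := by
  refine ⟨p, 1, hp, one_ne_zero, ?_⟩
  have h1 : pq v (1 : ℚ[X]) = 1 := by
    apply Units.ext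
    rw [pq_val hv one_ne_zero, map_one, Units.val_one]
  rw [h1, div_one]

private theorem sunR_one {K : Type} [Field K] [CharZero K] {v : K} : sunR v (1 : Kˣ) :=
  ⟨1, 1, one_ne_zero, one_ne_zero, (div_self' _).symm⟩

private theorem sunR_pow {K : Type} [Field K] [CharZero K] {v : K} (hv : Transcendental ℚ v)
    {u : Kˣ} (h : sunR v u) (n : ℕ) : sunR v (u ^ n) := by
  induction n with
  | zero => rw [pow_zero]; exact sunR_one
  | succ n ih => rw [pow_succ]; exact sunR_mul hv ih h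

private theorem sunR_zpow {K : Type} [Field K] [CharZero K] {v : K} (hv : Transcendental ℚ v)
    {u : Kˣ} (h : sunR v u) (n : ℤ) : sunR v (u ^ n) := by
  obtain ⟨m, rfl | rfl⟩ := Int.eq_nat_or_neg n
  · rw [zpow_natCast]
    exact sunR_pow hv h m
  · rw [zpow_neg, zpow_natCast]
    exact sunR_inv (sunR_pow hv h m)

private theorem sun_rat {K : Type} [Field K] [CharZero K] {O : ValuationSubring K} (hO : IsPl O)
    {q : ℚ} (hq : (q : K) ≠ 0) : O.valuation (q : K) = 1 := by
  have h1 : O.valuation (q : K) ≤ 1 := (O.valuation_le_one_iff _).2 (hO.2 q)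
  have h2 : O.valuation ((q : K)⁻¹) ≤ 1 := (O.valuation_le_one_iff _).2 (by
    have := hO.2 q⁻¹
    rwa [Rat.cast_inv] at this)
  rw [map_inv₀] at h2
  have h3 : O.valuation (q : K) ≠ 0 := (O.valuation.ne_zero_iff).2 hq
  exact le_antisymm h1 ((inv_le_one₀ (zero_lt_iff.2 h3)).1 h2)

private theorem sun_int {K : Type} [Field K] [CharZero K] {O : ValuationSubring K} (hO : IsPl O)
    {n : ℤ} (hn : n ≠ 0) : O.valuation (n : K) = 1 := by
  have h1 : ((n : ℚ) : K) = (n : K) := Rat.cast_intCast n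
  rw [← h1]
  refine sun_rat hO ?_
  rw [h1]
  exact Int.cast_ne_zero.2 hn

private theorem sun_place {g : ℕ} {a : Fin (g + 1) → ℤ} {d : Fin (g + 1) → ℕ} {c κ : ℤ} {K : Type} [Field K]
    [CharZero K] {x : K} {v : Kˣ} (H : Crv a d c κ x v) (l : Fin (g + 1)) :
    ∃ O : ValuationSubring K, IsPl O ∧ O.valuation (x - a l) < 1 := by
  have ht : Transcendental ℚ (x - (a l : K)) := by
    intro h
    apply H.tr
    have h1 : IsAlgebraic ℚ ((a l : ℤ) : K) := by
      have h2 := isAlgebraic_algebraMap (R := ℚ) (A := K) (a l : ℚ)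
      rwa [eq_ratCast, Rat.cast_intCast] at h2
    have h2 := h.add h1
    rwa [sub_add_cancel] at h2
  exact exists_zero ht (finite_of_transcendental H.fin ht)

private theorem sun_other {K : Type} [Field K] [CharZero K] {O : ValuationSubring K}
    (hO : IsPl O) {x : K} {m n : ℤ} (hmn : m ≠ n) (h : O.valuation (x - m) < 1) :
    O.valuation (x - n) = 1 := by
  have h1 : O.valuation ((m - n : ℤ) : K) = 1 := sun_int hO (sub_ne_zero.2 hmn)
  have h2 : x - n = (x - m) + ((m - n : ℤ) : K) := by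
    push_cast
    ring
  rw [h2, Valuation.map_add_eq_of_lt_right _ (by rw [h1]; exact h), h1]

private theorem sun_vo_Hf {g : ℕ} {K : Type} [Field K] [CharZero K] (x : K)
    (a : Fin (g + 1) → ℤ) (e : Fin (g + 1) → ℤ) (O : ValuationSubring K) :
    vo O (Hf x a e) = ∑ l, e l * vo O (xa x a l) := by
  unfold Hf
  rw [vo_prod]
  exact Finset.sum_congr rfl fun l _ => vo_zpow _ _ _

/-- a function with zeros and poles only over `w = ∞` is constant -/
private theorem sun_const {g : ℕ} {a : Fin (g + 1) → ℤ} {d : Fin (g + 1) → ℕ} {c κ : ℤ} {K : Type} [Field K]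
    [CharZero K] {x : K} {v : Kˣ} (H : Crv a d c κ x v) {k : Kˣ}
    (hk : ∀ O : ValuationSubring K, IsPl O → ¬ 1 < O.valuation (v : K) → vo O k = 0) :
    sunR (v : K) k := by
  have hv := H.tr_v
  have halg : IsAlgebraic ℚ (k : K) := by
    by_contra ht
    have ht' : Transcendental ℚ (k : K) := ht
    have ht2 : Transcendental ℚ ((k⁻¹ : Kˣ) : K) := by
      intro h
      apply ht
      rw [Units.val_inv_eq_inv_val] at h
      exact IsAlgebraic.inv_iff.1 h
    obtain ⟨P, hP, h1⟩ := exists_zero ht' (finite_of_transcendental H.fin ht')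
    obtain ⟨Q, hQ, h2⟩ := exists_zero ht2 (finite_of_transcendental H.fin ht2)
    have h3 := (vo_pos_iff hP k).2 h1
    have h4 := (vo_pos_iff hQ k⁻¹).2 h2
    have h5 : ∀ O : ValuationSubring K, vo O k⁻¹ = - vo O k := by
      intro O
      have h6 := vo_zpow O k (-1)
      rw [zpow_neg_one] at h6
      rw [h6]
      ring
    rw [h5] at h4
    have h6 : 1 < P.valuation (v : K) := by
      by_contra h
      rw [hk P hP h] at h3
      exact lt_irrefl _ h3
    have h7 : 1 < Q.valuation (v : K) := by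
      by_contra h
      rw [hk Q hQ h] at h4
      simp at h4
    have h8 := H.inf_unique hP hQ h6 h7
    rw [← h8] at h4
    linarith
  obtain ⟨q, hq⟩ := H.cst (k : K) halg
  have hq0 : q ≠ 0 := by
    rintro rfl
    rw [Rat.cast_zero] at hq
    exact k.ne_zero hq.symm
  have h1 : k = pq (v : K) (C q) := by
    refine pq_congr hv (C_ne_zero.2 hq0) ?_
    rw [aeval_C, eq_ratCast, hq]
  rw [h1]
  exact sunR_of hv (C_ne_zero.2 hq0)

private theorem sun_prod {g : ℕ} {a : Fin (g + 1) → ℤ} {d : Fin (g + 1) → ℕ} {c κ : ℤ} {K : Type} [Field K]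
    [CharZero K] {x : K} {v : Kˣ} (H : Crv a d c κ x v) : sunR (v : K) (∏ l, xa x a l ^ d l) := by
  have hv := H.tr_v
  have hc : (c : K) ≠ 0 := Int.cast_ne_zero.2 H.c0
  have h1 : ((∏ l, xa x a l ^ d l : Kˣ) : K) = ∏ l, (x - a l) ^ d l := by
    rw [Units.coe_prod]
    exact Finset.prod_congr rfl fun l _ => by rw [Units.val_pow_eq_pow_val, xa_val H.tr a l]
  have h2 := H.prod
  rw [← h1, ← aeval_map] at h2
  have h3 : (Dq κ).map (Int.castRingHom ℚ) ≠ 0 := by
    intro h
    rw [h, map_zero] at h2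
    exact mul_ne_zero (mul_ne_zero hc v.ne_zero) (Units.ne_zero _) h2
  have h4 : (C (c : ℚ) * X : ℚ[X]) ≠ 0 :=
    mul_ne_zero (C_ne_zero.2 (Int.cast_ne_zero.2 H.c0)) X_ne_zero
  refine ⟨(Dq κ).map (Int.castRingHom ℚ), C (c : ℚ) * X, h3, h4, ?_⟩
  rw [eq_div_iff_mul_eq']
  apply Units.ext
  rw [Units.val_mul, pq_val hv h3, pq_val hv h4, ← h2, map_mul, aeval_C, aeval_X, eq_ratCast,
    Rat.cast_intCast]
  ring

theorem Crv.s_unit {g : ℕ} {a : Fin (g + 1) → ℤ} {d : Fin (g + 1) → ℕ} {c κ : ℤ}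
    {K : Type} [Field K] [CharZero K] {x : K} {v : Kˣ} (H : Crv a d c κ x v) (h : Kˣ)
    (hh : ∀ O : ValuationSubring K, IsPl O → O.valuation (v : K) = 1 →
      O.valuation (aeval (v : K) (Dq κ)) = 1 → vo O h = 0) :
    ∃ (M : ℕ) (e : Fin (g + 1) → ℤ) (p q : ℚ[X]), 0 < M ∧ ∑ l, e l = 0 ∧ p ≠ 0 ∧ q ≠ 0 ∧
      h ^ M = pq (v : K) p / pq (v : K) q * Hf x a e := by
  classical
  have hv := H.tr_v
  have hx := H.tr
  have hc : (c : K) ≠ 0 := Int.cast_ne_zero.2 H.c0
  obtain ⟨O0, hO0, h0⟩ := exists_zero hv H.fin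
  choose O hO hOl using sun_place H
  obtain ⟨m0, hm0⟩ : ∃ m0 : ℤ, m0 = vo O0 v := ⟨_, rfl⟩
  have hm0p : 0 < m0 := by
    rw [hm0]
    exact (vo_pos_iff hO0 v).2 h0
  obtain ⟨b, hb⟩ : ∃ b : Fin (g + 1) → ℤ, ∀ l, b l = vo (O l) (xa x a l) := ⟨_, fun _ => rfl⟩
  have hbp : ∀ l, 0 < b l := by
    intro l
    rw [hb]
    refine (vo_pos_iff (hO l) _).2 ?_
    rw [xa_val hx]
    exact hOl l
  obtain ⟨D, hD⟩ : ∃ D : ℤ, D = ∏ l, b l := ⟨_, rfl⟩
  have hDp : 0 < D := by
    rw [hD]
    exact Finset.prod_pos fun l _ => hbp l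
  obtain ⟨t, ht⟩ : ∃ t : Fin (g + 1) → ℤ, ∀ l, t l = vo (O l) h *
    ∏ j ∈ Finset.univ.erase l, b j := ⟨_, fun _ => rfl⟩
  have htd : ∀ l, t l * b l = D * vo (O l) h := by
    intro l
    rw [ht, mul_assoc, Finset.prod_erase_mul _ _ (Finset.mem_univ l), hD]
    ring
  obtain ⟨T, hT⟩ : ∃ T : ℤ, T = D * vo O0 h - ∑ j, t j * vo O0 (xa x a j) := ⟨_, rfl⟩
  obtain ⟨k, hk⟩ : ∃ k : Kˣ, k = h ^ (m0 * D) * Hf x a (fun l => -(m0 * t l)) * v ^ (-T) :=
    ⟨_, rfl⟩
  have hvk : ∀ P : ValuationSubring K, vo P k = m0 * D * vo P h +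
      ∑ l, -(m0 * t l) * vo P (xa x a l) + -T * vo P v := by
    intro P
    rw [hk, vo_mul, vo_mul, vo_zpow, sun_vo_Hf, vo_zpow]
  have hk0 : ∀ P : ValuationSubring K, IsPl P → ¬ 1 < P.valuation (v : K) → vo P k = 0 := by
    intro P hP hPv
    rcases lt_or_eq_of_le (not_lt.1 hPv) with h1 | h1
    · have h2 : P = O0 := H.zero_unique hP hO0 h1 h0
      rw [hvk, h2, ← hm0, hT]
      have h3 : ∑ l, -(m0 * t l) * vo O0 (xa x a l) = -m0 * ∑ l, t l * vo O0 (xa x a l) := by
        rw [Finset.mul_sum]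
        exact Finset.sum_congr rfl fun l _ => by ring
      rw [h3]
      ring
    · have hv0 : vo P v = 0 := (vo_eq_zero_iff hP v).2 h1
      by_cases h2 : ∃ l, P.valuation (x - a l) < 1
      · obtain ⟨l, hl⟩ := h2
        have h3 : P = O l := H.pla_unique hP (hO l) hl (hOl l)
        have h4 : ∑ j, -(m0 * t j) * vo P (xa x a j) = -(m0 * t l) * vo P (xa x a l) := by
          refine Finset.sum_eq_single l (fun j _ hj => ?_) fun h5 => absurd (Finset.mem_univ l) h5
          have h5 : vo P (xa x a j) = 0 := by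
            rw [vo_eq_zero_iff hP, xa_val hx]
            exact sun_other hP (fun h6 => hj (H.inj h6).symm) hl
          rw [h5, mul_zero]
        rw [hvk, h4, hv0, h3, ← hb]
        have h6 := htd l
        linear_combination (-m0) * h6
      · push Not at h2
        have h3 : ∀ l, P.valuation (x - a l) = 1 := fun l =>
          H.pla_unit l hP h1 (not_lt.2 (h2 l))
        have h4 : ∀ l, vo P (xa x a l) = 0 := by
          intro l
          rw [vo_eq_zero_iff hP, xa_val hx]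
          exact h3 l
        have h5 : P.valuation (aeval (v : K) (Dq κ)) = 1 := by
          rw [← H.prod, map_mul, map_mul, sun_int hP H.c0, h1, map_prod,
            Finset.prod_congr rfl fun l _ => by rw [map_pow, h3 l, one_pow]]
          simp
        rw [hvk, hh P hP h1 h5, hv0]
        simp [h4]
  have hRk := sun_const H hk0
  have hRp := sun_prod H
  have hRv : sunR (v : K) v := by
    have h1 : v = pq (v : K) X := pq_congr hv X_ne_zero (by rw [aeval_X])
    have h2 := sunR_of hv (X_ne_zero (R := ℚ))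
    rwa [← h1] at h2
  obtain ⟨U, hU⟩ : ∃ U : ℤ, U = ∑ l, m0 * t l := ⟨_, rfl⟩
  obtain ⟨m, hm⟩ : ∃ m : ℕ, m = ∑ i, d i := ⟨_, rfl⟩
  have hmp : 0 < m := by
    have := H.mpos
    omega
  have hR : sunR (v : K) (k ^ m * (∏ l, xa x a l ^ d l) ^ U * v ^ (T * m)) :=
    sunR_mul hv (sunR_mul hv (sunR_pow hv hRk _) (sunR_zpow hv hRp _)) (sunR_zpow hv hRv _)
  obtain ⟨p, q, hp, hq, hpq⟩ := hR
  refine ⟨(m0 * D).toNat * m, fun l => m * (m0 * t l) - U * d l, p, q, ?_, ?_, hp, hq, ?_⟩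
  · have h1 : 0 < (m0 * D).toNat := by
      have h2 := mul_pos hm0p hDp
      omega
    exact Nat.mul_pos h1 hmp
  · rw [Finset.sum_sub_distrib, ← Finset.mul_sum, ← hU, ← Finset.mul_sum, hm]
    push_cast
    ring
  · rw [← hpq, pow_mul, ← zpow_natCast h (m0 * D).toNat, Int.toNat_of_nonneg
      (mul_pos hm0p hDp).le]
    have h1 : h ^ (m0 * D) = k * Hf x a (fun l => m0 * t l) * v ^ T := by
      rw [hk]
      have h2 : Hf x a (fun l => -(m0 * t l)) = (Hf x a (fun l => m0 * t l))⁻¹ := by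
        unfold Hf
        rw [← Finset.prod_inv_distrib]
        exact Finset.prod_congr rfl fun l _ => zpow_neg _ _
      rw [h2, zpow_neg, mul_assoc (h ^ (m0 * D)), mul_assoc (h ^ (m0 * D)),
        mul_comm (Hf x a (fun l => m0 * t l))⁻¹, mul_assoc (v ^ T)⁻¹, inv_mul_cancel, mul_one,
        mul_assoc, inv_mul_cancel, mul_one]
    have h3 : Hf x a (fun l => m * (m0 * t l) - U * d l) * (∏ l, xa x a l ^ d l) ^ U =
        Hf x a (fun l => m0 * t l) ^ m := by
      unfold Hf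
      rw [← Finset.prod_zpow, ← Finset.prod_mul_distrib, ← Finset.prod_pow]
      refine Finset.prod_congr rfl fun l _ => ?_
      rw [← zpow_natCast (xa x a l) (d l), ← zpow_mul, ← zpow_add,
        ← zpow_natCast (xa x a l ^ (m0 * t l)) m, ← zpow_mul]
      congr 1
      ring
    have h4 : v ^ (T * (m : ℤ)) = (v ^ T) ^ m := by
      rw [← zpow_natCast (v ^ T), ← zpow_mul]
    rw [h1, mul_pow, mul_pow, ← h3, h4]
    ac_rfl

end Pool.Agent.ETO
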