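import Pool.Agent.ETI.Tam
import Pool.Agent.ETI.GdM
import Pool.Agent.ETO.Ker
import Pool.Agent.ETI.DgU

/-!
# The places over the exceptional points are unique

If `P ∣ f j`, or if `Rel f b P` and the degree of `P` is at most `Bd f`, the roots of `P` are nice (`Prm.nice`, `nice_mem`).
If `P` has a good root in `PadicAlgCl p₁` or `PadicAlgCl p₂`, this root is in `F` (`good_mem`). If it has no good root at both
primes, its degree is at most `Bd f` (`deg_unif`). In all cases `Crv.pl_eq` applies; `F` from `exists_tm`.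
-/

open scoped BigOperators Polynomial
open Polynomial

namespace Pool.Agent.ETO

open Pool.Agent.ETU Pool.Agent.ETI Pool.Agent.CST Pool.Agent.Helper11 Pool.Agent.ISI

private theorem Uni_rel {M : Type} [Field M] [CharZero M] {P : ℚ[X]} {α : M}
    (hα : aeval α P = 0) {A B : ℤ[X]} {n : ℕ}
    (h : P ∣ (A ^ n - B ^ n).map (Int.castRingHom ℚ)) : (aeval α A) ^ n = (aeval α B) ^ n := by
  obtain ⟨R, hR⟩ := h
  have h1 : aeval α ((A ^ n - B ^ n).map (Int.castRingHom ℚ)) = 0 := by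
    rw [hR, map_mul, hα, zero_mul]
  have e : Int.castRingHom ℚ = algebraMap ℤ ℚ := rfl
  rw [e, aeval_map_algebraMap, map_sub, map_pow, map_pow, sub_eq_zero] at h1
  exact h1

private theorem Uni_nice {g : ℕ} {a : Fin (g + 1) → ℤ} {d : Fin (g + 1) → ℕ} {c κ : ℤ}
    {K : Type} [Field K] [CharZero K] {x : K} {v : Kˣ} (H : Crv a d c κ x v) {p : ℕ} [Fact p.Prime] {r : ℕ}
    {f : Fin r → ℤ[X]} (hp : Prm p a d c κ f) {P : ℚ[X]} (hP : P.Monic) (hP' : Irreducible P)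
    (hn : Nice p κ P) {O O' : ValuationSubring K} (hO : IsPl O) (hO' : IsPl O')
    (hv : O.valuation (aeval (v : K) P) < 1) (hv' : O'.valuation (aeval (v : K) P) < 1) :
    O = O' := by
  obtain ⟨F, hF⟩ := exists_tm (p := p) (m := ∑ i, d i) H.m1 hp.cop
  obtain ⟨α, hα⟩ := IsAlgClosed.exists_aeval_eq_zero (PadicAlgCl p) P
    (degree_pos_of_irreducible hP').ne'
  obtain ⟨h1, h2, -⟩ := hn.2 α hα
  exact H.pl_eq hp.val hF hP hP' hα (nice_mem hF hn hα) h1 h2 hO hO' hv hv'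

private theorem Uni_good {g : ℕ} {a : Fin (g + 1) → ℤ} {d : Fin (g + 1) → ℕ} {c κ : ℤ}
    {K : Type} [Field K] [CharZero K] {x : K} {v : Kˣ} (H : Crv a d c κ x v) {p : ℕ} [Fact p.Prime] {r : ℕ}
    {f : Fin r → ℤ[X]} (hp : Prm p a d c κ f) {P : ℚ[X]} (hP : P.Monic) (hP' : Irreducible P)
    {b : Fin r → ℤ} (hrel : Rel f b P) {α : PadicAlgCl p} (hα : aeval α P = 0)
    (hg : GoodD κ f b α) {O O' : ValuationSubring K} (hO : IsPl O) (hO' : IsPl O')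
    (hv : O.valuation (aeval (v : K) P) < 1) (hv' : O'.valuation (aeval (v : K) P) < 1) :
    O = O' := by
  obtain ⟨F, hF⟩ := exists_tm (p := p) (m := ∑ i, d i) H.m1 hp.cop
  obtain ⟨n, hn, hd⟩ := hrel
  exact H.pl_eq hp.val hF hP hP' hα (good_mem hF f b hn (Uni_rel hα hd) hg.1) hg.1.1 hg.2 hO hO'
    hv hv'

theorem Crv.uniq {g : ℕ} {a : Fin (g + 1) → ℤ} {d : Fin (g + 1) → ℕ} {c κ : ℤ}
    {K : Type} [Field K] [CharZero K] {x : K} {v : Kˣ} (H : Crv a d c κ x v) {p₁ p₂ : ℕ} [Fact p₁.Prime] [Fact p₂.Prime]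
    (h12 : p₁ ≠ p₂) {r : ℕ} {f : Fin r → ℤ[X]} (hp₁ : Prm p₁ a d c κ f) (hp₂ : Prm p₂ a d c κ f)
    {P : ℚ[X]} (hP : P.Monic) (hP' : Irreducible P) (hX : ¬ P ∣ X)
    (hD : ¬ P ∣ (Dq κ).map (Int.castRingHom ℚ))
    (hor : (∃ j, P ∣ (f j).map (Int.castRingHom ℚ)) ∨ ∃ b : Fin r → ℤ, Prim b ∧ Rel f b P)
    {O O' : ValuationSubring K} (hO : IsPl O) (hO' : IsPl O')
    (hv : O.valuation (aeval (v : K) P) < 1) (hv' : O'.valuation (aeval (v : K) P) < 1) :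
    O = O' := by
  rcases hor with hj | ⟨b, hb, hrel⟩
  · exact Uni_nice H hp₁ hP hP' (hp₁.nice P hP hP' hX hD (Or.inl hj)) hO hO' hv hv'
  by_cases hg₁ : ∃ α : PadicAlgCl p₁, aeval α P = 0 ∧ GoodD κ f b α
  · obtain ⟨α, hα, hg⟩ := hg₁
    exact Uni_good H hp₁ hP hP' hrel hα hg hO hO' hv hv'
  by_cases hg₂ : ∃ α : PadicAlgCl p₂, aeval α P = 0 ∧ GoodD κ f b α
  · obtain ⟨α, hα, hg⟩ := hg₂
    exact Uni_good H hp₂ hP hP' hrel hα hg hO hO' hv hv'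
  have hdeg : P.natDegree ≤ Bd f := deg_unif h12 hp₁.fam hp₂.fam hp₁.big hp₂.big κ hb hP hP' hrel
    (fun α hα hg => hg₁ ⟨α, hα, hg⟩) (fun α hα hg => hg₂ ⟨α, hα, hg⟩)
  have hb0 : b ≠ 0 := by
    rintro rfl
    obtain ⟨i, hi⟩ := hb 2 Nat.prime_two
    exact hi (dvd_zero _)
  exact Uni_nice H hp₁ hP hP' (hp₁.nice P hP hP' hX hD (Or.inr ⟨hdeg, b, hb0, hrel⟩)) hO hO' hv
    hv'

end Pool.Agent.ETO
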